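import Pool.Agent.H269.GV.Gev

set_option autoImplicit false

/-!
# Gevrey estimates for the flat functions
-/

open Real Filter Topology Finset
open scoped ContDiff Nat

namespace Pool.Agent.H269.GV

open Pool.Agent.H690.LN

lemma iter_re {w : ℝ → ℝ} {G : ℂ → ℂ} (hG : ∀ ζ : ℂ, ζ ≠ 0 → AnalyticAt ℂ G ζ)
    (h : ∀ x : ℝ, x ≠ 0 → w x = (G x).re) (m : ℕ) :
    ∀ x : ℝ, x ≠ 0 → iteratedDeriv m w x = (iteratedDeriv m G (x : ℂ)).re := by
  induction m with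
  | zero =>
    intro x hx
    simpa using h x hx
  | succ m ih =>
    intro x hx
    have hx' : (x : ℂ) ≠ 0 := by exact_mod_cast hx
    rw [iteratedDeriv_succ, iteratedDeriv_succ]
    have h1 : iteratedDeriv m w =ᶠ[𝓝 x] fun y : ℝ => (iteratedDeriv m G (y : ℂ)).re := by
      filter_upwards [isOpen_ne.mem_nhds hx] with y hy
      exact ih y hy
    rw [h1.deriv_eq]
    have h2 : DifferentiableAt ℂ (iteratedDeriv m G) (x : ℂ) := by
      rw [iteratedDeriv_eq_iterate]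
      exact ((hG _ hx').iterated_deriv m).differentiableAt
    exact (h2.hasDerivAt.real_of_complex).deriv

/-- the holomorphic functions behind the flat functions -/
noncomputable def GG (r : ℕ) (A ν : ℝ) (c : ℂ) (k : ℕ) (ζ : ℂ) : ℂ :=
  c * Complex.exp (-(((A : ℂ) + ν * Complex.I) * (ζ⁻¹) ^ (2 * r))) * (ζ⁻¹) ^ k

lemma GG_diff (r : ℕ) (A ν : ℝ) (c : ℂ) (k : ℕ) {ζ : ℂ} (hζ : ζ ≠ 0) : DifferentiableAt ℂ (GG r A ν c k) ζ := by
  unfold GG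
  have h1 : DifferentiableAt ℂ (fun ζ : ℂ => ζ⁻¹) ζ := differentiableAt_inv hζ
  fun_prop (disch := assumption)

lemma GG_an (r : ℕ) (A ν : ℝ) (c : ℂ) (k : ℕ) (ζ : ℂ) (hζ : ζ ≠ 0) : AnalyticAt ℂ (GG r A ν c k) ζ := by
  have h : DifferentiableOn ℂ (GG r A ν c k) {0}ᶜ := fun z hz => (GG_diff r A ν c k hz).differentiableWithinAt
  exact h.analyticAt (isOpen_compl_singleton.mem_nhds hζ)

lemma GG_est {r : ℕ} (hr : 1 ≤ r) {A : ℝ} (hA : 0 < A) (ν : ℝ) (c : ℂ) (k : ℕ) : ∃ C : ℝ, 1 ≤ C ∧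
    ∀ (m : ℕ) (x : ℝ), x ≠ 0 → |x| ≤ 1 → ‖iteratedDeriv m (GG r A ν c k) (x : ℂ)‖ ≤
      C ^ (m + 1) * ((m ! : ℕ) : ℝ) ^ (1 + 1 / (2 * (r : ℝ))) := by
  set h : ℂ → ℝ := fun w => (((A : ℂ) + ν * Complex.I) * ((1 + w)⁻¹) ^ (2 * r)).re with hh
  have hcont : ContinuousAt h 0 := by
    have h1 : ContinuousAt (fun w : ℂ => (1 + w)⁻¹) 0 := by
      apply ContinuousAt.inv₀ (by fun_prop)
      simp
    exact Complex.continuous_re.continuousAt.comp (continuousAt_const.mul (h1.pow _))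
  have h00 : h 0 = A := by simp [hh]
  have hev : ∀ᶠ w in 𝓝 (0 : ℂ), A / 2 < h w := hcont.eventually (lt_mem_nhds (by rw [h00]; linarith))
  obtain ⟨ρ0, hρ0, hρ⟩ := Metric.eventually_nhds_iff.1 hev
  set ρ : ℝ := min (ρ0 / 2) (1 / 2) with hρd
  have hρpos : 0 < ρ := by positivity
  have hρ1 : ρ ≤ 1 / 2 := min_le_right _ _
  have hρ2 : ρ < ρ0 := lt_of_le_of_lt (min_le_left _ _) (by linarith)
  obtain ⟨L, K, hL, hK, hnum⟩ := num_bound hr (B := A / 2) (by positivity) k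
  set C : ℝ := 1 + ‖c‖ * 2 ^ k * K + L / ρ with hC
  have hC1 : 1 ≤ C := by
    have h1 : 0 ≤ ‖c‖ * 2 ^ k * K := by positivity
    have h2 : 0 ≤ L / ρ := by positivity
    linarith
  refine ⟨C, hC1, fun m x hx hx1 => ?_⟩
  have hxa : 0 < |x| := abs_pos.2 hx
  have hxc : (x : ℂ) ≠ 0 := by exact_mod_cast hx
  set t : ℝ := |x|⁻¹ with ht
  have ht1 : 1 ≤ t := (one_le_inv₀ hxa).2 hx1
  have ht0 : 0 < t := by linarith
  set R : ℝ := ρ * |x| with hR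
  have hR0 : 0 < R := by positivity
  -- points of the closed disc
  have hpt : ∀ ζ ∈ Metric.closedBall (x : ℂ) R, ∃ w : ℂ, ‖w‖ ≤ ρ ∧ ζ = x * (1 + w) := by
    intro ζ hζ
    refine ⟨(ζ - x) / x, ?_, by field_simp; ring⟩
    rw [norm_div, Complex.norm_real, Real.norm_eq_abs, div_le_iff₀ hxa]
    rw [Metric.mem_closedBall, dist_eq_norm] at hζ
    exact hζ
  have h1w : ∀ w : ℂ, ‖w‖ ≤ ρ → 1 / 2 ≤ ‖1 + w‖ := by
    intro w hw
    have h3 := norm_sub_le_norm_add (1 : ℂ) w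
    rw [norm_one] at h3
    linarith
  have hne : ∀ ζ ∈ Metric.closedBall (x : ℂ) R, ζ ≠ 0 := by
    intro ζ hζ
    obtain ⟨w, hw, rfl⟩ := hpt ζ hζ
    apply mul_ne_zero hxc
    have := h1w w hw
    intro h4
    rw [h4, norm_zero] at this
    linarith
  have hdc : DiffContOnCl ℂ (GG r A ν c k) (Metric.ball (x : ℂ) R) := by
    apply DifferentiableOn.diffContOnCl
    intro ζ hζ
    exact (GG_diff r A ν c k (hne ζ (Metric.closure_ball_subset_closedBall hζ))).differentiableWithinAt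
  have hsph : ∀ ζ ∈ Metric.sphere (x : ℂ) R, ‖GG r A ν c k ζ‖ ≤
      ‖c‖ * Real.exp (-(A / 2 * t ^ (2 * r))) * (2 * t) ^ k := by
    intro ζ hζ
    obtain ⟨w, hw, rfl⟩ := hpt ζ (Metric.sphere_subset_closedBall hζ)
    have hww : A / 2 < h w := hρ (by rw [dist_zero_right]; linarith)
    have e1 : ((x : ℂ) * (1 + w))⁻¹ = (x : ℂ)⁻¹ * (1 + w)⁻¹ := by rw [mul_inv]
    have e2 : ((x : ℂ)⁻¹) ^ (2 * r) = ((t ^ (2 * r) : ℝ) : ℂ) := by
      rw [ht, ← abs_inv, (even_two_mul r).pow_abs]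
      push_cast
      rfl
    have e3 : (-(((A : ℂ) + ν * Complex.I) * (((x : ℂ) * (1 + w))⁻¹) ^ (2 * r))).re = -(t ^ (2 * r) * h w) := by
      rw [e1, mul_pow, e2, Complex.neg_re]
      congr 1
      rw [show ((A : ℂ) + ν * Complex.I) * (((t ^ (2 * r) : ℝ) : ℂ) * ((1 + w)⁻¹) ^ (2 * r))
        = ((t ^ (2 * r) : ℝ) : ℂ) * (((A : ℂ) + ν * Complex.I) * ((1 + w)⁻¹) ^ (2 * r)) by ring,
        Complex.re_ofReal_mul]
    unfold GG
    rw [norm_mul, norm_mul, Complex.norm_exp, e3, norm_pow, e1, norm_mul, norm_inv, norm_inv, Complex.norm_real,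
      Real.norm_eq_abs]
    have e4 : ‖1 + w‖⁻¹ ≤ 2 := by
      have h5 := h1w w hw
      have h6 : (0 : ℝ) < 1 / 2 := by norm_num
      calc ‖1 + w‖⁻¹ ≤ (1 / 2 : ℝ)⁻¹ := inv_anti₀ h6 h5
        _ = 2 := by norm_num
    have e5 : |x|⁻¹ * ‖1 + w‖⁻¹ ≤ 2 * t := by
      rw [← ht]
      nlinarith
    have e6 : Real.exp (-(t ^ (2 * r) * h w)) ≤ Real.exp (-(A / 2 * t ^ (2 * r))) := by
      apply Real.exp_le_exp.2
      have : 0 < t ^ (2 * r) := by positivity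
      nlinarith
    have e7 : 0 ≤ |x|⁻¹ * ‖1 + w‖⁻¹ := by positivity
    gcongr
  have hcau := Complex.norm_iteratedDeriv_le_of_forall_mem_sphere_norm_le m hR0 hdc hsph
  refine hcau.trans ?_
  have hn := hnum m t ht1
  have hm0 : (0 : ℝ) < ((m ! : ℕ) : ℝ) := by exact_mod_cast Nat.factorial_pos m
  have e8 : (m ! : ℕ) * (‖c‖ * Real.exp (-(A / 2 * t ^ (2 * r))) * (2 * t) ^ k) / R ^ m
      = (m ! : ℕ) * (‖c‖ * 2 ^ k * (ρ⁻¹) ^ m) * (t ^ m * t ^ k * Real.exp (-(A / 2 * t ^ (2 * r)))) := by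
    rw [div_eq_mul_inv, hR, mul_pow ρ, mul_inv, ← inv_pow, ← inv_pow, ← ht, mul_pow 2 t]
    ring
  rw [e8, Real.rpow_add hm0, Real.rpow_one]
  set q : ℝ := 1 / (2 * (r : ℝ)) with hq
  have hfq := fact_rpow_pos q m
  have hCC : (‖c‖ * 2 ^ k * K) * (L / ρ) ^ m ≤ C ^ (m + 1) := by
    rw [pow_succ']
    have h2 : 0 ≤ L / ρ := by positivity
    have h3 : 0 ≤ ‖c‖ * 2 ^ k * K := by positivity
    have h4 : L / ρ ≤ C := by linarith
    have h5 : ‖c‖ * 2 ^ k * K ≤ C := by linarith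
    gcongr
  calc (m ! : ℕ) * (‖c‖ * 2 ^ k * (ρ⁻¹) ^ m) * (t ^ m * t ^ k * Real.exp (-(A / 2 * t ^ (2 * r))))
      ≤ (m ! : ℕ) * (‖c‖ * 2 ^ k * (ρ⁻¹) ^ m) * (K * L ^ m * ((m ! : ℕ) : ℝ) ^ q) := by gcongr
    _ = ((‖c‖ * 2 ^ k * K) * (L / ρ) ^ m) * ((m ! : ℕ) * ((m ! : ℕ) : ℝ) ^ q) := by
        rw [div_eq_mul_inv, mul_pow]; ring
    _ ≤ C ^ (m + 1) * ((m ! : ℕ) * ((m ! : ℕ) : ℝ) ^ q) := by gcongr

/-- iterated derivatives of the flat functions vanish at `0` -/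
lemma Cl.iter {r : ℕ} (hr : 1 ≤ r) {a : ℝ} (ha : 0 < a) {j : ℕ} (hj : 1 ≤ j) {f : ℝ → ℝ} (h : Cl r a j f) (m : ℕ) :
    Cl r a j (iteratedDeriv m f) := by
  induction m with
  | zero => rw [iteratedDeriv_zero]; exact h
  | succ m ih =>
    obtain ⟨f', h1, h2⟩ := ih.hasDeriv hr ha hj
    rw [iteratedDeriv_succ, show deriv (iteratedDeriv m f) = f' from funext fun x => (h2 x).deriv]
    exact h1

lemma Gv_flat {r : ℕ} (hr : 1 ≤ r) {a : ℝ} (ha : 0 < a) {j : ℕ} (hj : 1 ≤ j) (k : ℕ) {P : ℝ → ℝ} (hP : PS P)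
    {A ν : ℝ} (hA : 0 < A) {c : ℂ} (h : ∀ x : ℝ, x ≠ 0 → W r a j k P x = (GG r A ν c k x).re) :
    Gv (1 + 1 / (2 * (r : ℝ))) (W r a j k P) := by
  have hcl : Cl r a j (W r a j k P) := Cl.base k P hP
  obtain ⟨C, hC, hb⟩ := GG_est hr hA ν c k
  refine ⟨hcl.contDiff hr ha hj, C, hC, fun m x hx => ?_⟩
  have h4 := fact_rpow_pos (1 + 1 / (2 * (r : ℝ))) m
  by_cases hx0 : x = 0
  · subst hx0
    rw [(hcl.iter hr ha hj m).zero_val, abs_zero]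
    positivity
  · rw [iter_re (GG_an r A ν c k) h m x hx0]
    exact (Complex.abs_re_le_norm _).trans (hb m x hx0 hx)

theorem Gv_W {r : ℕ} (hr : 1 ≤ r) {a : ℝ} (ha : 0 < a) {j : ℕ} (hj : 1 ≤ j) {P : ℝ → ℝ} (hP : P ∈ TPs) (k : ℕ) :
    Gv (1 + 1 / (2 * (r : ℝ))) (W r a j k P) := by
  have hj' : (1 : ℝ) ≤ j := by exact_mod_cast hj
  have hA : 0 < (j : ℝ) * a := by positivity
  -- the exponential
  have hexp : ∀ (n : ℤ) (x : ℝ), Complex.exp (-((((j * a : ℝ) : ℂ) + ((n : ℝ) : ℂ) * Complex.I) * ((x : ℂ)⁻¹) ^ (2 * r)))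
      = ((Real.exp (-(j * a * (x⁻¹) ^ (2 * r))) * Real.cos (n * (-(x⁻¹) ^ (2 * r))) : ℝ) : ℂ)
        + ((Real.exp (-(j * a * (x⁻¹) ^ (2 * r))) * Real.sin (n * (-(x⁻¹) ^ (2 * r))) : ℝ) : ℂ) * Complex.I := by
    intro n x
    rw [show -((((j * a : ℝ) : ℂ) + ((n : ℝ) : ℂ) * Complex.I) * ((x : ℂ)⁻¹) ^ (2 * r))
      = ((-(j * a * (x⁻¹) ^ (2 * r)) : ℝ) : ℂ) + ((n * (-(x⁻¹) ^ (2 * r)) : ℝ) : ℂ) * Complex.I by push_cast; ring,
      Complex.exp_add, Complex.exp_mul_I]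
    push_cast
    ring
  have hpw : ∀ x : ℝ, ((x : ℂ)⁻¹) ^ k = (((x⁻¹) ^ k : ℝ) : ℂ) := fun x => by push_cast; rfl
  refine TPs_ind (p := fun P => Gv (1 + 1 / (2 * (r : ℝ))) (W r a j k P)) ?_ ?_ ?_ ?_ ?_ hP
  · intro n
    refine Gv_flat hr ha hj k (TPs_ps (cos_mem n)) (A := j * a) (ν := n) (c := 1) hA (fun x hx => ?_)
    rw [W_of_ne hx]
    unfold GG
    rw [hexp, hpw, one_mul, mul_comm _ (((x⁻¹ ^ k : ℝ) : ℂ)), Complex.re_ofReal_mul]
    simp only [Complex.add_re, Complex.ofReal_re, Complex.mul_re, Complex.I_re, mul_zero, Complex.ofReal_im,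
      Complex.I_im, mul_one, sub_self, add_zero]
    ring
  · intro n
    refine Gv_flat hr ha hj k (TPs_ps (sin_mem n)) (A := j * a) (ν := n) (c := -Complex.I) hA (fun x hx => ?_)
    rw [W_of_ne hx]
    unfold GG
    rw [hexp, hpw, mul_comm _ (((x⁻¹ ^ k : ℝ) : ℂ)), Complex.re_ofReal_mul]
    simp only [Complex.add_re, Complex.add_im, Complex.neg_re, Complex.neg_im, Complex.ofReal_re, Complex.mul_re,
      Complex.mul_im, Complex.I_re, mul_zero, Complex.ofReal_im, Complex.I_im, mul_one, sub_self, add_zero, zero_mul,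
      neg_zero, zero_add, zero_sub, neg_mul, one_mul, neg_neg, sub_neg_eq_add]
    ring
  · refine (Gv_const 0).congr fun x => ?_
    unfold W
    split_ifs <;> simp
  · intro f g hf hg
    refine (hf.add hg).congr fun x => ?_
    by_cases hx : x = 0
    · subst hx; simp [W_zero]
    · rw [W_of_ne hx, W_of_ne hx, W_of_ne hx]; ring
  · intro c f hf
    refine (hf.const_mul c).congr fun x => ?_
    by_cases hx : x = 0
    · subst hx; simp [W_zero]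
    · rw [W_of_ne hx, W_of_ne hx]; ring

end Pool.Agent.H269.GV
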