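import Pool.Agent.H269.GV.Fn

set_option autoImplicit false

/-!
# Formulas and estimates on the right half plane
-/

open Real Filter Topology Finset
open scoped ContDiff

namespace Pool.Agent.H269.GV

open Pool.Agent.H690.LN

namespace Dat

variable (D : Dat)

/-- profile of the real part -/
noncomputable def RRp (u Y : ℝ) : ℝ := D.b u - ((D.m : ℝ) * (((D.m - 1 : ℕ) : ℝ) * Y ^ (D.m - 1 - 1))
  + ∑ j ∈ Ico 3 D.m, (j : ℝ) * (D.ga j u * (((j - 1 : ℕ) : ℝ) * Y ^ (j - 1 - 1))))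

/-- profile of the imaginary part -/
noncomputable def SSp (u Y : ℝ) : ℝ :=
  (∑ j ∈ Ico 3 D.m, (j : ℝ) * ((2 * (((D.m - j : ℕ) : ℝ) * D.a * D.ga j u + deriv (D.ga j) u)) * Y ^ (j - 1)))
    + 2 * (D.q u * Y) + D.p u

/-- weight -/
noncomputable def ww (Y : ℝ) : ℝ := 1 + |Y| ^ (D.m - 2)

lemma ww_pos (Y : ℝ) : 0 < D.ww Y := by unfold ww; positivity

lemma one_le_ww (Y : ℝ) : 1 ≤ D.ww Y := by
  unfold ww
  have : 0 ≤ |Y| ^ (D.m - 2) := by positivity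
  linarith

/-- continuous version of the scale -/
noncomputable def sc : ℝ → ℝ := W D.r D.a 1 0 (fun _ => 1)
noncomputable def RRs (w : ℂ) : ℝ := D.b0 w.re - ((D.m : ℝ) * (((D.m - 1 : ℕ) : ℝ) * w.im ^ (D.m - 1 - 1))
  + ∑ j ∈ Ico 3 D.m, (j : ℝ) * (D.cc j w.re * (((j - 1 : ℕ) : ℝ) * w.im ^ (j - 1 - 1))))
noncomputable def wws (w : ℂ) : ℝ := D.sc w.re ^ (D.m - 2) + |w.im| ^ (D.m - 2)

lemma cont_sc : Continuous D.sc := (Cl.base 0 _ (PS.const 1) : Cl D.r D.a 1 _).cont D.hr D.ha le_rfl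

lemma cont_RRs : Continuous D.RRs := by
  apply (D.cd_b0.continuous.comp Complex.continuous_re).sub
  apply (continuous_const.mul (continuous_const.mul (Complex.continuous_im.pow _))).add
  apply continuous_finsetSum
  intro j hj
  exact continuous_const.mul (((D.cd_cc (Finset.mem_Ico.1 hj).2).continuous.comp Complex.continuous_re).mul
    (continuous_const.mul (Complex.continuous_im.pow _)))

lemma cont_wws : Continuous D.wws :=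
  ((D.cont_sc.comp Complex.continuous_re).pow _).add (Complex.continuous_im.abs.pow _)

lemma sc_eq {x : ℝ} (hx : 0 < x) : D.sc x = ss D.r D.a x := by rw [sc, W_eq hx.ne']; simp

lemma sc_zero : D.sc 0 = 0 := W_zero _ _ _ _ _

/-- the phase -/
noncomputable def _root_.Pool.Agent.H269.GV.uu (r : ℕ) (x : ℝ) : ℝ := -(x⁻¹) ^ (2 * r)

lemma cc_eq {x : ℝ} (hx : 0 < x) {j : ℕ} (hj : 3 ≤ j) : D.cc j x = ss D.r D.a x ^ (D.m - j) * D.ga j (uu D.r x) := by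
  obtain ⟨i, rfl⟩ : ∃ i, j = i + 3 := ⟨j - 3, by omega⟩
  simp only [cc]
  rw [W_eq hx.ne', pow_zero, mul_one]
  rfl

lemma dd_eq {x : ℝ} (hx : 0 < x) {j : ℕ} (hj : 3 ≤ j) : D.dd j x = ss D.r D.a x ^ (D.m - j) * (x⁻¹) ^ (2 * D.r + 1) *
    ((D.r : ℝ) * (2 * (((D.m - j : ℕ) : ℝ) * D.a * D.ga j (uu D.r x) + deriv (D.ga j) (uu D.r x)))) := by
  obtain ⟨i, rfl⟩ : ∃ i, j = i + 3 := ⟨j - 3, by omega⟩
  simp only [dd]
  rw [W_eq hx.ne']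
  rfl

lemma split_range {f : ℕ → ℝ} {m : ℕ} (hm : 5 ≤ m) : ∑ j ∈ range m, f j = f 0 + f 1 + f 2 + ∑ j ∈ Ico 3 m, f j := by
  rw [Finset.range_eq_Ico, Finset.sum_eq_sum_Ico_succ_bot (by omega), Finset.sum_eq_sum_Ico_succ_bot (by omega),
    Finset.sum_eq_sum_Ico_succ_bot (by omega)]
  ring

lemma Fxy_eq {x : ℝ} (hx : 0 < x) (Y : ℝ) : D.Fxy ⟨x, ss D.r D.a x * Y⟩ = (x⁻¹) ^ (2 * D.r + 1) * ss D.r D.a x ^ (D.m - 1) *
    ((D.r : ℝ) * D.SSp (uu D.r x) Y) := by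
  have hm := D.hm
  unfold Fxy SSp
  rw [split_range hm]
  simp only
  have h1 : D.dd 1 x = ss D.r D.a x ^ (D.m - 1) * (x⁻¹) ^ (2 * D.r + 1) * ((D.r : ℝ) * D.p (uu D.r x)) :=
    W_eq hx.ne' D.r D.a (D.m - 1) (2 * D.r + 1) (fun u => (D.r : ℝ) * D.p u)
  have h2 : D.dd 2 x = ss D.r D.a x ^ (D.m - 2) * (x⁻¹) ^ (2 * D.r + 1) * ((D.r : ℝ) * D.q (uu D.r x)) :=
    W_eq hx.ne' D.r D.a (D.m - 2) (2 * D.r + 1) (fun u => (D.r : ℝ) * D.q u)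
  have h3 : ∑ j ∈ Ico 3 D.m, (j : ℝ) * (D.dd j x * (ss D.r D.a x * Y) ^ (j - 1)) = (x⁻¹) ^ (2 * D.r + 1) * ss D.r D.a x ^ (D.m - 1) *
      ((D.r : ℝ) * ∑ j ∈ Ico 3 D.m, (j : ℝ) * ((2 * (((D.m - j : ℕ) : ℝ) * D.a * D.ga j (uu D.r x)
        + deriv (D.ga j) (uu D.r x))) * Y ^ (j - 1))) := by
    rw [Finset.mul_sum, Finset.mul_sum]
    apply Finset.sum_congr rfl
    intro j hj
    rw [Finset.mem_Ico] at hj
    rw [D.dd_eq hx hj.1, mul_pow]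
    have h4 : ss D.r D.a x ^ (D.m - 1) = ss D.r D.a x ^ (D.m - j) * ss D.r D.a x ^ (j - 1) := by
      rw [← pow_add]; congr 1; omega
    rw [h4]
    ring
  have h5 : ss D.r D.a x ^ (D.m - 1) = ss D.r D.a x ^ (D.m - 2) * ss D.r D.a x := by
    rw [← pow_succ]; congr 1; omega
  rw [h3, h1, h2, h5]
  push_cast
  simp
  ring

lemma main_eq {x : ℝ} (hx : 0 < x) (Y : ℝ) : D.Fxx ⟨x, ss D.r D.a x * Y⟩ - D.Fyy ⟨x, ss D.r D.a x * Y⟩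
    = ss D.r D.a x ^ (D.m - 2) * D.RRp (uu D.r x) Y + ∑ j ∈ Ico 1 D.m, D.ee j x * (ss D.r D.a x * Y) ^ j := by
  have hm := D.hm
  have e1 : D.Fxx ⟨x, ss D.r D.a x * Y⟩ = D.e0 x + ∑ j ∈ Ico 1 D.m, D.ee j x * (ss D.r D.a x * Y) ^ j := by
    unfold Fxx
    rw [Finset.range_eq_Ico, Finset.sum_eq_sum_Ico_succ_bot (by omega)]
    simp [ee]
  have e2 : D.Fyy ⟨x, ss D.r D.a x * Y⟩ = (D.m : ℝ) * (((D.m - 1 : ℕ) : ℝ) * (ss D.r D.a x * Y) ^ (D.m - 1 - 1))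
      + 2 * D.cc 2 x + ∑ j ∈ Ico 3 D.m, (j : ℝ) * (D.cc j x * (((j - 1 : ℕ) : ℝ) * (ss D.r D.a x * Y) ^ (j - 1 - 1))) := by
    unfold Fyy
    rw [split_range hm]
    simp
    ring
  have e3 : D.e0 x = ss D.r D.a x ^ (D.m - 2) * D.b (uu D.r x) + 2 * D.cc 2 x := by
    have : D.b0 x = ss D.r D.a x ^ (D.m - 2) * D.b (uu D.r x) := by
      unfold b0
      rw [W_eq hx.ne', pow_zero, mul_one]; rfl
    unfold e0
    rw [this]; rfl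
  have e4 : ∑ j ∈ Ico 3 D.m, (j : ℝ) * (D.cc j x * (((j - 1 : ℕ) : ℝ) * (ss D.r D.a x * Y) ^ (j - 1 - 1)))
      = ss D.r D.a x ^ (D.m - 2) * ∑ j ∈ Ico 3 D.m, (j : ℝ) * (D.ga j (uu D.r x) * (((j - 1 : ℕ) : ℝ) * Y ^ (j - 1 - 1))) := by
    rw [Finset.mul_sum]
    apply Finset.sum_congr rfl
    intro j hj
    rw [Finset.mem_Ico] at hj
    rw [D.cc_eq hx hj.1, mul_pow]
    have h4 : ss D.r D.a x ^ (D.m - 2) = ss D.r D.a x ^ (D.m - j) * ss D.r D.a x ^ (j - 1 - 1) := by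
      rw [← pow_add]; congr 1; omega
    rw [h4]
    ring
  have e5 : (ss D.r D.a x * Y) ^ (D.m - 1 - 1) = ss D.r D.a x ^ (D.m - 2) * Y ^ (D.m - 1 - 1) := by
    rw [mul_pow]; rfl
  rw [e1, e2, e3, e4, e5]
  unfold RRp
  ring

lemma RRs_eq {x : ℝ} (hx : 0 < x) (Y : ℝ) : D.RRs ⟨x, ss D.r D.a x * Y⟩ = ss D.r D.a x ^ (D.m - 2) * D.RRp (uu D.r x) Y := by
  have e4 : ∑ j ∈ Ico 3 D.m, (j : ℝ) * (D.cc j x * (((j - 1 : ℕ) : ℝ) * (ss D.r D.a x * Y) ^ (j - 1 - 1)))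
      = ss D.r D.a x ^ (D.m - 2) * ∑ j ∈ Ico 3 D.m, (j : ℝ) * (D.ga j (uu D.r x) * (((j - 1 : ℕ) : ℝ) * Y ^ (j - 1 - 1))) := by
    rw [Finset.mul_sum]
    apply Finset.sum_congr rfl
    intro j hj
    rw [Finset.mem_Ico] at hj
    rw [D.cc_eq hx hj.1, mul_pow]
    have h4 : ss D.r D.a x ^ (D.m - 2) = ss D.r D.a x ^ (D.m - j) * ss D.r D.a x ^ (j - 1 - 1) := by
      rw [← pow_add]; congr 1; omega
    rw [h4]
    ring
  have e5 : (ss D.r D.a x * Y) ^ (D.m - 1 - 1) = ss D.r D.a x ^ (D.m - 2) * Y ^ (D.m - 1 - 1) := by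
    rw [mul_pow]; rfl
  have e6 : D.b0 x = ss D.r D.a x ^ (D.m - 2) * D.b (uu D.r x) := by
    unfold b0
    rw [W_eq hx.ne', pow_zero, mul_one]; rfl
  unfold RRs RRp
  simp only
  rw [e4, e5, e6]
  ring

lemma wws_eq {x : ℝ} (hx : 0 < x) (Y : ℝ) : D.wws ⟨x, ss D.r D.a x * Y⟩ = ss D.r D.a x ^ (D.m - 2) * D.ww Y := by
  unfold wws ww
  simp only
  rw [D.sc_eq hx, abs_mul, abs_of_pos (ss_pos _ _ _), mul_pow]
  ring

/-- the error term -/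
lemma E_bound : ∃ C : ℝ, ∃ K : ℕ, 0 ≤ C ∧ ∀ x : ℝ, 0 < x → x ≤ 1 → ∀ Y : ℝ, |ss D.r D.a x * Y| ≤ 1 →
    |∑ j ∈ Ico 1 D.m, D.ee j x * (ss D.r D.a x * Y) ^ j| ≤ C * (ss D.r D.a x * (x⁻¹) ^ K) * (ss D.r D.a x ^ (D.m - 2) * D.ww Y) := by
  have hm := D.hm
  have h1 : ∀ j : ℕ, ∃ C : ℝ, ∃ k : ℕ, 0 ≤ C ∧ (j ∈ Ico 1 D.m → ∀ x : ℝ, 0 < x → x ≤ 1 →
      |D.ee j x| ≤ C * (ss D.r D.a x ^ (D.m - j) * (x⁻¹) ^ k)) := by
    intro j
    by_cases hj : j ∈ Ico 1 D.m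
    · rw [Finset.mem_Ico] at hj
      obtain ⟨f', h2, h3⟩ := (D.Cl_dd hj.1).hasDeriv D.hr D.ha (by omega)
      obtain ⟨C, k, h4, h5⟩ := h2.bound
      refine ⟨C, k, h4, fun _ x hx0 hx1 => ?_⟩
      obtain ⟨i, rfl⟩ : ∃ i, j = i + 1 := ⟨j - 1, by omega⟩
      simp only [ee]
      rw [(h3 x).deriv]
      exact h5 x hx0 hx1
    · exact ⟨0, 0, le_rfl, fun h => absurd h hj⟩
  choose C k hC hb using h1
  refine ⟨∑ j ∈ Ico 1 D.m, C j, ∑ j ∈ Ico 1 D.m, k j, Finset.sum_nonneg fun j _ => hC j, ?_⟩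
  intro x hx0 hx1 Y hY
  have hs := ss_pos D.r D.a x
  have hs1 := ss_le_one (r := D.r) D.ha x
  have ht := inv_ge_one hx0 hx1
  refine (Finset.abs_sum_le_sum_abs _ _).trans ?_
  rw [Finset.sum_mul, Finset.sum_mul]
  apply Finset.sum_le_sum
  intro j hj
  have h2 := hb j hj x hx0 hx1
  have hkj : k j ≤ ∑ j ∈ Ico 1 D.m, k j := Finset.single_le_sum (f := k) (fun i _ => Nat.zero_le _) hj
  have h3 : (x⁻¹) ^ k j ≤ (x⁻¹) ^ (∑ j ∈ Ico 1 D.m, k j) := pow_le_pow_right₀ ht hkj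
  have hj' := Finset.mem_Ico.1 hj
  rw [abs_mul, abs_pow, abs_mul, abs_of_pos hs] at *
  -- the power of Y
  have h4 : |Y| ^ (j - 1) ≤ D.ww Y := by
    unfold ww
    rcases le_total |Y| 1 with h | h
    · have h5 : |Y| ^ (j - 1) ≤ 1 := pow_le_one₀ (abs_nonneg _) h
      have h6 : 0 ≤ |Y| ^ (D.m - 2) := by positivity
      linarith
    · have h5 : |Y| ^ (j - 1) ≤ |Y| ^ (D.m - 2) := pow_le_pow_right₀ h (by omega)
      linarith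
  have h5 : (ss D.r D.a x * |Y|) ^ j = (ss D.r D.a x * |Y|) * (ss D.r D.a x ^ (j - 1) * |Y| ^ (j - 1)) := by
    rw [← mul_pow, ← pow_succ']; congr 1; omega
  have h6 : ss D.r D.a x ^ (D.m - j) * ss D.r D.a x ^ (j - 1) = ss D.r D.a x * ss D.r D.a x ^ (D.m - 2) := by
    rw [← pow_add, ← pow_succ']; congr 1; omega
  calc |D.ee j x| * (ss D.r D.a x * |Y|) ^ j
      ≤ (C j * (ss D.r D.a x ^ (D.m - j) * (x⁻¹) ^ k j)) * ((ss D.r D.a x * |Y|) * (ss D.r D.a x ^ (j - 1) * |Y| ^ (j - 1))) := by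
        rw [← h5]; gcongr
    _ ≤ (C j * (ss D.r D.a x ^ (D.m - j) * (x⁻¹) ^ (∑ j ∈ Ico 1 D.m, k j))) * (1 * (ss D.r D.a x ^ (j - 1) * D.ww Y)) := by
        have := hC j
        gcongr
    _ = C j * (ss D.r D.a x ^ (D.m - j) * ss D.r D.a x ^ (j - 1)) * (x⁻¹) ^ (∑ j ∈ Ico 1 D.m, k j) * D.ww Y := by ring
    _ = _ := by rw [h6]; ring

/-- smallness -/
lemma exists_small (K : ℕ) {η : ℝ} (hη : 0 < η) : ∃ ε : ℝ, 0 < ε ∧ ε < 1 ∧ ∀ x : ℝ, 0 < x → x < ε →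
    ss D.r D.a x * (x⁻¹) ^ K ≤ η := by
  have h1 := W_tendsto D.hr D.ha (j := 1) (by norm_num) K (PS.const 1)
  have h4 := (h1.eventually (ge_mem_nhds hη))
  rw [eventually_nhdsWithin_iff, Metric.eventually_nhds_iff] at h4
  obtain ⟨ε, hε, h5⟩ := h4
  refine ⟨min ε (1 / 2), by positivity, lt_of_le_of_lt (min_le_right _ _) (by norm_num), fun x hx0 hx1 => ?_⟩
  have h6 := h5 (y := x) (by
    rw [Real.dist_eq, sub_zero, abs_of_pos hx0]; exact hx1.trans_le (min_le_left _ _)) hx0.ne'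
  rw [W_eq hx0.ne'] at h6
  simpa using h6

/-- values on the axis -/
lemma axis (y : ℝ) : D.Fxx ⟨0, y⟩ - D.Fyy ⟨0, y⟩ = D.RRs ⟨0, y⟩ ∧ D.Fxy ⟨0, y⟩ = 0 ∧
    D.RRs ⟨0, y⟩ = -((D.m : ℝ) * (((D.m - 1 : ℕ) : ℝ) * y ^ (D.m - 1 - 1))) := by
  have hm := D.hm
  have hdd : ∀ j, D.dd j 0 = 0 := by
    intro j
    match j with
    | 0 => exact Pr_zero _
    | 1 => exact W_zero D.r D.a (D.m - 1) (2 * D.r + 1) (fun u => (D.r : ℝ) * D.p u)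
    | 2 => exact W_zero D.r D.a (D.m - 2) (2 * D.r + 1) (fun u => (D.r : ℝ) * D.q u)
    | (j + 3) => simp only [dd]; exact W_zero _ _ _ _ _
  have hcc : ∀ j, D.cc j 0 = 0 := by
    intro j
    match j with
    | 0 => exact Pr_zero _
    | 1 => exact Pr_zero _
    | 2 => exact Pr_zero _
    | (j + 3) => simp only [cc]; exact W_zero _ _ _ _ _
  have hee : ∀ j, j < D.m → D.ee j 0 = 0 := by
    intro j hj
    match j, hj with
    | 0, _ => simp [ee, e0, b0, W_zero, Pr_zero]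
    | (j + 1), h => exact (D.Cl_dd (by omega : 1 ≤ j + 1)).deriv_zero D.hr D.ha (by omega)
  have h1 : D.Fxx ⟨0, y⟩ = 0 := by
    unfold Fxx
    apply Finset.sum_eq_zero
    intro j hj
    simp only
    rw [hee j (Finset.mem_range.1 hj), zero_mul]
  have h2 : D.Fxy ⟨0, y⟩ = 0 := by
    unfold Fxy
    apply Finset.sum_eq_zero
    intro j hj
    simp only
    rw [hdd j]; ring
  have h3 : D.Fyy ⟨0, y⟩ = (D.m : ℝ) * (((D.m - 1 : ℕ) : ℝ) * y ^ (D.m - 1 - 1)) := by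
    unfold Fyy
    rw [Finset.sum_eq_zero, add_zero]
    intro j hj
    simp only
    rw [hcc j]; ring
  have h4 : D.RRs ⟨0, y⟩ = -((D.m : ℝ) * (((D.m - 1 : ℕ) : ℝ) * y ^ (D.m - 1 - 1))) := by
    unfold RRs
    rw [Finset.sum_eq_zero]
    · simp only [b0, W_zero]; ring
    · intro j hj
      simp only
      rw [hcc j]; ring
  exact ⟨by rw [h1, h3, h4]; ring, h2, h4⟩

end Dat

end Pool.Agent.H269.GV
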