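import Pool.Agent.H269.GV.Wr

set_option autoImplicit false

/-!
# The function `y^m + ∑ c_j(x) y^j` and its derivatives
-/

open Real Filter Topology
open scoped ContDiff

namespace Pool.Agent.H269.GV

open Pool.Agent.H690.LN

/-- the data of the construction -/
structure Dat where
  m : ℕ
  r : ℕ
  a : ℝ
  ga : ℕ → ℝ → ℝ
  q : ℝ → ℝ
  p : ℝ → ℝ
  b : ℝ → ℝ
  hm : 5 ≤ m
  hr : 1 ≤ r
  ha : 0 < a
  hga : ∀ j, PS (ga j)
  hq : PS q
  hp : PS p
  hb : PS b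

namespace Dat

variable (D : Dat)

noncomputable def b0 : ℝ → ℝ := W D.r D.a (D.m - 2) 0 D.b
noncomputable def e0 (x : ℝ) : ℝ := D.b0 x + 2 * Pr (W D.r D.a (D.m - 2) (2 * D.r + 1) (fun u => (D.r : ℝ) * D.q u)) x

/-- coefficients -/
noncomputable def cc : ℕ → ℝ → ℝ
  | 0 => Pr (Pr D.e0)
  | 1 => Pr (W D.r D.a (D.m - 1) (2 * D.r + 1) (fun u => (D.r : ℝ) * D.p u))
  | 2 => Pr (W D.r D.a (D.m - 2) (2 * D.r + 1) (fun u => (D.r : ℝ) * D.q u))
  | (j + 3) => W D.r D.a (D.m - (j + 3)) 0 (D.ga (j + 3))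

/-- first derivatives of the coefficients -/
noncomputable def dd : ℕ → ℝ → ℝ
  | 0 => Pr D.e0
  | 1 => W D.r D.a (D.m - 1) (2 * D.r + 1) (fun u => (D.r : ℝ) * D.p u)
  | 2 => W D.r D.a (D.m - 2) (2 * D.r + 1) (fun u => (D.r : ℝ) * D.q u)
  | (j + 3) => W D.r D.a (D.m - (j + 3)) (2 * D.r + 1) (fun u => (D.r : ℝ) * (2 * (((D.m - (j + 3) : ℕ) : ℝ) * D.a *
      D.ga (j + 3) u + deriv (D.ga (j + 3)) u)))

/-- second derivatives of the coefficients -/
noncomputable def ee : ℕ → ℝ → ℝ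
  | 0 => D.e0
  | (j + 1) => deriv (D.dd (j + 1))

lemma Cl_b0 : Cl D.r D.a (D.m - 2) D.b0 := Cl.base _ _ D.hb

lemma Cl_dd {j : ℕ} (hj : 1 ≤ j) : Cl D.r D.a (D.m - j) (D.dd j) := by
  match j, hj with
  | 1, _ => exact Cl.base _ _ ((PS.const _).mul D.hp)
  | 2, _ => exact Cl.base _ _ ((PS.const _).mul D.hq)
  | (j + 3), _ => exact Cl.base _ _ ((PS.const _).mul ((PS.const 2).mul (((PS.const _).mul (D.hga _)).add (D.hga _).deriv)))

lemma cd_b0 : ContDiff ℝ ∞ D.b0 := D.Cl_b0.contDiff D.hr D.ha (by have := D.hm; omega)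

lemma cd_dd' {j : ℕ} (hj : 1 ≤ j) (hjm : j < D.m) : ContDiff ℝ ∞ (D.dd j) :=
  (D.Cl_dd hj).contDiff D.hr D.ha (by omega)

lemma cd_e0 : ContDiff ℝ ∞ D.e0 := by
  have h2 : ContDiff ℝ ∞ (W D.r D.a (D.m - 2) (2 * D.r + 1) (fun u => (D.r : ℝ) * D.q u)) := D.cd_dd' (j := 2) (by norm_num) (by have := D.hm; omega)
  exact D.cd_b0.add (contDiff_const.mul (Pr_contDiff h2))

lemma cd_dd {j : ℕ} (hjm : j < D.m) : ContDiff ℝ ∞ (D.dd j) := by
  rcases Nat.eq_zero_or_pos j with h | h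
  · subst h; exact Pr_contDiff D.cd_e0
  · exact D.cd_dd' h hjm

lemma cd_cc {j : ℕ} (hjm : j < D.m) : ContDiff ℝ ∞ (D.cc j) := by
  match j, hjm with
  | 0, h => exact Pr_contDiff (D.cd_dd h)
  | 1, h => exact Pr_contDiff (D.cd_dd h)
  | 2, h => exact Pr_contDiff (D.cd_dd h)
  | (j + 3), h => exact (Cl.base 0 _ (D.hga _) : Cl D.r D.a (D.m - (j + 3)) _).contDiff D.hr D.ha (by omega)

lemma fl_cc {j : ℕ} (hjm : j < D.m) : Fl (D.cc j) := by
  have hm := D.hm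
  have f1 : Fl (W D.r D.a (D.m - 1) (2 * D.r + 1) (fun u => (D.r : ℝ) * D.p u)) := (Cl.base _ _ ((PS.const _).mul D.hp) : Cl D.r D.a (D.m - 1) _).fl D.hr D.ha (by omega)
  have f2 : Fl (W D.r D.a (D.m - 2) (2 * D.r + 1) (fun u => (D.r : ℝ) * D.q u)) := (Cl.base _ _ ((PS.const _).mul D.hq) : Cl D.r D.a (D.m - 2) _).fl D.hr D.ha (by omega)
  have f0 : Fl D.e0 := (D.Cl_b0.fl D.hr D.ha (by omega)).add (f2.pr.constMul 2)
  match j, hjm with
  | 0, h => exact f0.pr.pr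
  | 1, h => exact f1.pr
  | 2, h => exact f2.pr
  | (j + 3), h => exact (Cl.base 0 _ (D.hga _) : Cl D.r D.a (D.m - (j + 3)) _).fl D.hr D.ha (by omega)

lemma W_zero_mul (r : ℕ) (a : ℝ) (j k : ℕ) (P : ℝ → ℝ) (x : ℝ) : W r a j k (fun u => (-((0 : ℕ) : ℝ)) * P u) x = 0 := by
  unfold W
  split_ifs <;> simp

lemma hd_cc {j : ℕ} (hjm : j < D.m) (x : ℝ) : HasDerivAt (D.cc j) (D.dd j x) x := by
  match j, hjm with
  | 0, h => exact Pr_hasDerivAt (D.cd_dd h).continuous x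
  | 1, h => exact Pr_hasDerivAt (D.cd_dd h).continuous x
  | 2, h => exact Pr_hasDerivAt (D.cd_dd h).continuous x
  | (j + 3), h =>
    have h1 := W_hasDerivAt D.hr D.ha (j := D.m - (j + 3)) (by omega) 0 (D.hga (j + 3)) x
    rw [W_zero_mul, add_zero, zero_add] at h1
    exact h1

lemma hd_dd {j : ℕ} (hjm : j < D.m) (x : ℝ) : HasDerivAt (D.dd j) (D.ee j x) x := by
  match j, hjm with
  | 0, h => exact Pr_hasDerivAt D.cd_e0.continuous x
  | (j + 1), h => exact ((D.cd_dd h).differentiable (by simp) x).hasDerivAt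

lemma cont_ee {j : ℕ} (hjm : j < D.m) : Continuous (D.ee j) := by
  match j, hjm with
  | 0, h => exact D.cd_e0.continuous
  | (j + 1), h =>
    have := D.cd_dd h
    rw [contDiff_infty_iff_deriv] at this
    exact this.2.continuous

/-- the function -/
noncomputable def F (z : ℂ) : ℝ := z.im ^ D.m + ∑ j ∈ Finset.range D.m, D.cc j z.re * z.im ^ j
noncomputable def Fx (z : ℂ) : ℝ := ∑ j ∈ Finset.range D.m, D.dd j z.re * z.im ^ j
noncomputable def Fy (z : ℂ) : ℝ := D.m * z.im ^ (D.m - 1)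
  + ∑ j ∈ Finset.range D.m, (j : ℝ) * (D.cc j z.re * z.im ^ (j - 1))
noncomputable def Fxx (z : ℂ) : ℝ := ∑ j ∈ Finset.range D.m, D.ee j z.re * z.im ^ j
noncomputable def Fxy (z : ℂ) : ℝ := ∑ j ∈ Finset.range D.m, (j : ℝ) * (D.dd j z.re * z.im ^ (j - 1))
noncomputable def Fyy (z : ℂ) : ℝ := D.m * (((D.m - 1 : ℕ) : ℝ) * z.im ^ (D.m - 1 - 1))
  + ∑ j ∈ Finset.range D.m, (j : ℝ) * (D.cc j z.re * (((j - 1 : ℕ) : ℝ) * z.im ^ (j - 1 - 1)))

lemma hterm {c : ℝ → ℝ} {c' : ℝ} (z : ℂ) (hc : HasDerivAt c c' z.re) (j : ℕ) :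
    HasFDerivAt (fun z : ℂ => c z.re * z.im ^ j)
      ((c' * z.im ^ j) • Complex.reCLM + (c z.re * (j * z.im ^ (j - 1))) • Complex.imCLM) z := by
  have h1 : HasFDerivAt (fun z : ℂ => c z.re) (c' • Complex.reCLM) z :=
    hc.comp_hasFDerivAt z Complex.reCLM.hasFDerivAt
  have h2 : HasFDerivAt (fun z : ℂ => z.im ^ j) ((j * z.im ^ (j - 1)) • Complex.imCLM) z := by
    exact (hasDerivAt_pow j z.im).comp_hasFDerivAt z Complex.imCLM.hasFDerivAt
  refine (h1.mul h2).congr_fderiv ?_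
  ext v
  simp
  ring

lemma hpow (a : ℝ) (j : ℕ) (z : ℂ) :
    HasFDerivAt (fun z : ℂ => a * z.im ^ j) ((a * (j * z.im ^ (j - 1))) • Complex.imCLM) z := by
  exact ((hasDerivAt_pow j z.im).const_mul a).comp_hasFDerivAt z Complex.imCLM.hasFDerivAt

lemma hF (z : ℂ) : HasFDerivAt D.F (D.Fx z • Complex.reCLM + D.Fy z • Complex.imCLM) z := by
  have h7 := hpow 1 D.m z
  have h := h7.fun_add (HasFDerivAt.fun_sum (u := Finset.range D.m)
    (fun j hj => hterm z (D.hd_cc (Finset.mem_range.1 hj) z.re) j))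
  have h' : D.F = fun z : ℂ => 1 * z.im ^ D.m + ∑ j ∈ Finset.range D.m, D.cc j z.re * z.im ^ j := by
    funext z
    simp [F]
  rw [h']
  refine h.congr_fderiv ?_
  ext v
  simp only [add_apply, smul_apply, sum_apply,
    Complex.reCLM_apply, Complex.imCLM_apply, smul_eq_mul, Fx, Fy, Finset.sum_add_distrib, Finset.sum_mul, add_mul]
  have e1 : ∀ j ∈ Finset.range D.m, D.cc j z.re * ((j : ℝ) * z.im ^ (j - 1)) * v.im
      = (j : ℝ) * (D.cc j z.re * z.im ^ (j - 1)) * v.im := fun j _ => by ring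
  rw [Finset.sum_congr rfl e1]
  ring

lemma hFx (z : ℂ) : HasFDerivAt D.Fx (D.Fxx z • Complex.reCLM + D.Fxy z • Complex.imCLM) z := by
  have h := (HasFDerivAt.fun_sum (u := Finset.range D.m)
    (fun j hj => hterm z (D.hd_dd (Finset.mem_range.1 hj) z.re) j))
  refine h.congr_fderiv ?_
  ext v
  simp only [add_apply, smul_apply, sum_apply,
    Complex.reCLM_apply, Complex.imCLM_apply, smul_eq_mul, Fxx, Fxy, Finset.sum_add_distrib, Finset.sum_mul]
  have e1 : ∀ j ∈ Finset.range D.m, D.dd j z.re * ((j : ℝ) * z.im ^ (j - 1)) * v.im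
      = (j : ℝ) * (D.dd j z.re * z.im ^ (j - 1)) * v.im := fun j _ => by ring
  rw [Finset.sum_congr rfl e1]

lemma hFy (z : ℂ) : HasFDerivAt D.Fy (D.Fxy z • Complex.reCLM + D.Fyy z • Complex.imCLM) z := by
  have h7 := hpow D.m (D.m - 1) z
  have h := h7.fun_add (HasFDerivAt.fun_sum (u := Finset.range D.m)
    (fun j hj => (hterm z (D.hd_cc (Finset.mem_range.1 hj) z.re) (j - 1)).const_mul (j : ℝ)))
  refine h.congr_fderiv ?_
  ext v
  simp only [add_apply, smul_apply, sum_apply,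
    Complex.reCLM_apply, Complex.imCLM_apply, smul_eq_mul, Fxy, Fyy, Finset.sum_add_distrib, Finset.sum_mul, add_mul,
    mul_add]
  have e1 : ∀ j ∈ Finset.range D.m, (j : ℝ) * (D.dd j z.re * z.im ^ (j - 1) * v.re)
      = (j : ℝ) * (D.dd j z.re * z.im ^ (j - 1)) * v.re := fun j _ => by ring
  have e2 : ∀ j ∈ Finset.range D.m, (j : ℝ) * (D.cc j z.re * (((j - 1 : ℕ) : ℝ) * z.im ^ (j - 1 - 1)) * v.im)
      = (j : ℝ) * (D.cc j z.re * (((j - 1 : ℕ) : ℝ) * z.im ^ (j - 1 - 1))) * v.im := fun j _ => by ring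
  rw [Finset.sum_congr rfl e1, Finset.sum_congr rfl e2]
  ring

lemma cd_F : ContDiff ℝ ∞ D.F := by
  apply (Complex.imCLM.contDiff.pow D.m).add
  apply ContDiff.sum
  intro j hj
  exact ((D.cd_cc (Finset.mem_range.1 hj)).comp Complex.reCLM.contDiff).mul (Complex.imCLM.contDiff.pow j)

lemma cont_Fxx : Continuous D.Fxx := by
  apply continuous_finsetSum
  intro j hj
  exact ((D.cont_ee (Finset.mem_range.1 hj)).comp Complex.continuous_re).mul (Complex.continuous_im.pow j)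

lemma cont_Fxy : Continuous D.Fxy := by
  apply continuous_finsetSum
  intro j hj
  exact continuous_const.mul (((D.cd_dd (Finset.mem_range.1 hj)).continuous.comp Complex.continuous_re).mul
    (Complex.continuous_im.pow (j - 1)))

lemma cont_Fyy : Continuous D.Fyy := by
  apply (continuous_const.mul (continuous_const.mul (Complex.continuous_im.pow (D.m - 1 - 1)))).add
  apply continuous_finsetSum
  intro j hj
  exact continuous_const.mul (((D.cd_cc (Finset.mem_range.1 hj)).continuous.comp Complex.continuous_re).mul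
    (continuous_const.mul (Complex.continuous_im.pow (j - 1 - 1))))

/-! ### parity -/

lemma W_even (r : ℕ) (a : ℝ) (j : ℕ) (P : ℝ → ℝ) (x : ℝ) : W r a j 0 P (-x) = W r a j 0 P x := by rw [W_neg]; simp
lemma W_odd (r : ℕ) (a : ℝ) (j : ℕ) (P : ℝ → ℝ) (x : ℝ) :
    W r a j (2 * r + 1) P (-x) = -W r a j (2 * r + 1) P x := by
  rw [W_neg, (odd_two_mul_add_one r).neg_one_pow, neg_one_mul]

lemma ev_e0 (x : ℝ) : D.e0 (-x) = D.e0 x := by
  unfold e0 b0
  rw [W_even, Pr_neg_of_odd (W_odd _ _ _ _)]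

lemma od_dd (j : ℕ) (x : ℝ) : D.dd j (-x) = -D.dd j x := by
  match j with
  | 0 => exact Pr_neg_of_even D.ev_e0 x
  | 1 => exact W_odd D.r D.a (D.m - 1) (fun u => (D.r : ℝ) * D.p u) x
  | 2 => exact W_odd D.r D.a (D.m - 2) (fun u => (D.r : ℝ) * D.q u) x
  | (j + 3) =>
    simp only [dd]
    exact W_odd _ _ _ _ x

lemma ev_cc (j : ℕ) (x : ℝ) : D.cc j (-x) = D.cc j x := by
  match j with
  | 0 => exact Pr_neg_of_odd (D.od_dd 0) x
  | 1 => exact Pr_neg_of_odd (D.od_dd 1) x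
  | 2 => exact Pr_neg_of_odd (D.od_dd 2) x
  | (j + 3) =>
    simp only [cc]
    exact W_even _ _ _ _ x

lemma ev_deriv {f : ℝ → ℝ} (h : ∀ x, f (-x) = -f x) (x : ℝ) : deriv f (-x) = deriv f x := by
  have h1 : f = fun x => -f (-x) := by funext x; rw [h]; ring
  have h2 : deriv (fun x => -f (-x)) (-x) = deriv f x := by
    rw [deriv.fun_neg, deriv_comp_neg]; simp
  rw [← h2, ← h1]

lemma ev_ee (j : ℕ) (x : ℝ) : D.ee j (-x) = D.ee j x := by
  match j with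
  | 0 => exact D.ev_e0 x
  | (j + 1) => exact ev_deriv (D.od_dd (j + 1)) x

/-- reflection in the imaginary axis -/
def rf (z : ℂ) : ℂ := ⟨-z.re, z.im⟩

lemma rf_Fxx (z : ℂ) : D.Fxx (rf z) = D.Fxx z := by
  simp only [Fxx, rf, D.ev_ee]
lemma rf_Fxy (z : ℂ) : D.Fxy (rf z) = -D.Fxy z := by
  simp only [Fxy, rf, D.od_dd]
  rw [← Finset.sum_neg_distrib]
  exact Finset.sum_congr rfl fun j _ => by ring
lemma rf_Fyy (z : ℂ) : D.Fyy (rf z) = D.Fyy z := by
  simp only [Fyy, rf, D.ev_cc]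

end Dat

end Pool.Agent.H269.GV
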