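import Pool.Agent.H269.GV.Pert

set_option autoImplicit false

/-!
# Gevrey estimates in one variable
-/

open Real Filter Topology Finset
open scoped ContDiff Nat

namespace Pool.Agent.H269.GV

open Pool.Agent.H690.LN

/-- Gevrey bounds of order `s` on `[-1, 1]` -/
def Gv (s : ℝ) (f : ℝ → ℝ) : Prop := ContDiff ℝ ∞ f ∧ ∃ C : ℝ, 1 ≤ C ∧ ∀ (k : ℕ) (x : ℝ), |x| ≤ 1 →
  |iteratedDeriv k f x| ≤ C ^ (k + 1) * ((k ! : ℕ) : ℝ) ^ s

lemma cda {E F : Type*} [NormedAddCommGroup E] [NormedSpace ℝ E] [NormedAddCommGroup F] [NormedSpace ℝ F]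
    {f : E → F} (hf : ContDiff ℝ ∞ f) (k : ℕ) (x : E) : ContDiffAt ℝ k f x :=
  (hf.of_le (by exact_mod_cast le_top)).contDiffAt

lemma fact_rpow_pos (s : ℝ) (k : ℕ) : 0 < ((k ! : ℕ) : ℝ) ^ s :=
  Real.rpow_pos_of_pos (by exact_mod_cast Nat.factorial_pos k) _

lemma Gv.add {s : ℝ} {f g : ℝ → ℝ} (hf : Gv s f) (hg : Gv s g) : Gv s (fun x => f x + g x) := by
  obtain ⟨hf0, C, hC, h1⟩ := hf
  obtain ⟨hg0, D, hD, h2⟩ := hg
  refine ⟨hf0.add hg0, C + D, by linarith, fun k x hx => ?_⟩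
  rw [iteratedDeriv_fun_add (cda hf0 k x) (cda hg0 k x)]
  have h3 : C ^ (k + 1) + D ^ (k + 1) ≤ (C + D) ^ (k + 1) := pow_add_pow_le (by linarith) (by linarith) (by omega)
  have h4 := fact_rpow_pos s k
  calc _ ≤ |iteratedDeriv k f x| + |iteratedDeriv k g x| := abs_add_le _ _
    _ ≤ C ^ (k + 1) * ((k ! : ℕ) : ℝ) ^ s + D ^ (k + 1) * ((k ! : ℕ) : ℝ) ^ s := add_le_add (h1 k x hx) (h2 k x hx)
    _ = (C ^ (k + 1) + D ^ (k + 1)) * ((k ! : ℕ) : ℝ) ^ s := by ring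
    _ ≤ _ := by gcongr

lemma Gv.const_mul {s : ℝ} {f : ℝ → ℝ} (c : ℝ) (hf : Gv s f) : Gv s (fun x => c * f x) := by
  obtain ⟨hf0, C, hC, h1⟩ := hf
  have hc1 : (1 : ℝ) ≤ |c| + 1 := by linarith [abs_nonneg c]
  refine ⟨contDiff_const.mul hf0, (|c| + 1) * C, by nlinarith, fun k x hx => ?_⟩
  rw [iteratedDeriv_const_mul_field, abs_mul]
  have h4 := fact_rpow_pos s k
  have h5 : |c| ≤ (|c| + 1) ^ (k + 1) := by
    have := le_self_pow₀ hc1 (n := k + 1) (by omega)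
    linarith
  calc |c| * |iteratedDeriv k f x| ≤ (|c| + 1) ^ (k + 1) * (C ^ (k + 1) * ((k ! : ℕ) : ℝ) ^ s) := by
        gcongr; exact h1 k x hx
    _ = _ := by rw [mul_pow]; ring

lemma Gv.congr {s : ℝ} {f g : ℝ → ℝ} (hf : Gv s f) (h : ∀ x, g x = f x) : Gv s g := by
  rwa [show g = f from funext h]

lemma Gv.mono {s t : ℝ} (hst : s ≤ t) {f : ℝ → ℝ} (hf : Gv s f) : Gv t f := by
  obtain ⟨hf0, C, hC, h1⟩ := hf
  refine ⟨hf0, C, hC, fun k x hx => (h1 k x hx).trans ?_⟩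
  have h2 : (1 : ℝ) ≤ ((k ! : ℕ) : ℝ) := by exact_mod_cast Nat.factorial_pos k
  have h3 := Real.rpow_le_rpow_of_exponent_le h2 hst
  gcongr

lemma Pr_deriv {f : ℝ → ℝ} (hf : Continuous f) : deriv (Pr f) = f := funext fun x => (Pr_hasDerivAt hf x).deriv

lemma Gv.pr {s : ℝ} (hs : 0 ≤ s) {f : ℝ → ℝ} (hf : Gv s f) : Gv s (Pr f) := by
  obtain ⟨hf0, C, hC, h1⟩ := hf
  refine ⟨Pr_contDiff hf0, C, hC, fun k x hx => ?_⟩
  rcases k with _ | k
  · rw [iteratedDeriv_zero]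
    have h2 : ‖∫ r in (0 : ℝ)..x, f r‖ ≤ C * |x - 0| := by
      apply intervalIntegral.norm_integral_le_of_norm_le_const
      intro r hr
      have hr' : |r| ≤ |x| := by
        rcases le_total 0 x with h | h
        · rw [Set.uIoc_of_le h] at hr
          rw [abs_of_pos hr.1, abs_of_nonneg h]; exact hr.2
        · rw [Set.uIoc_of_ge h] at hr
          rw [abs_of_nonpos hr.2, abs_of_nonpos h]; linarith [hr.1]
      have := h1 0 r (hr'.trans hx)
      rw [iteratedDeriv_zero] at this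
      simpa using this
    rw [sub_zero, Real.norm_eq_abs] at h2
    simp only [Nat.factorial_zero, Nat.cast_one, Real.one_rpow, mul_one, zero_add, pow_one]
    refine h2.trans ?_
    nlinarith
  · rw [iteratedDeriv_succ', Pr_deriv hf0.continuous]
    refine (h1 k x hx).trans ?_
    have h2 : ((k ! : ℕ) : ℝ) ^ s ≤ (((k + 1) ! : ℕ) : ℝ) ^ s :=
      Real.rpow_le_rpow (by positivity) (by exact_mod_cast Nat.factorial_le (Nat.le_succ k)) hs
    have h3 : C ^ (k + 1) ≤ C ^ (k + 1 + 1) := pow_le_pow_right₀ hC (by omega)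
    gcongr

lemma Gv_const {s : ℝ} (c : ℝ) : Gv s (fun _ => c) := by
  refine ⟨contDiff_const, |c| + 1, by linarith [abs_nonneg c], fun k x _ => ?_⟩
  rw [iteratedDeriv_const]
  have h4 := fact_rpow_pos s k
  have hc1 : (1 : ℝ) ≤ |c| + 1 := by linarith [abs_nonneg c]
  split_ifs with h
  · subst h
    simp
  · rw [abs_zero]; positivity

lemma Gv_id {s : ℝ} : Gv s (fun x => x) := by
  refine ⟨contDiff_id, 1, le_rfl, fun k x hx => ?_⟩
  have h4 := fact_rpow_pos s k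
  rcases k with _ | k
  · simpa using hx
  · rw [iteratedDeriv_succ']
    have h1 : deriv (fun x : ℝ => x) = fun _ => 1 := by funext x; simp
    rw [h1, iteratedDeriv_const]
    split_ifs with h
    · subst h
      simp
    · rw [abs_zero]; positivity

/-- elementary bound -/
lemma num_bound {r : ℕ} (hr : 1 ≤ r) {B : ℝ} (hB : 0 < B) (k : ℕ) : ∃ L K : ℝ, 0 < L ∧ 0 < K ∧
    ∀ (m : ℕ) (t : ℝ), 1 ≤ t → t ^ m * t ^ k * Real.exp (-(B * t ^ (2 * r))) ≤
      K * L ^ m * ((m ! : ℕ) : ℝ) ^ (1 / (2 * (r : ℝ))) := by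
  have hr' : (1 : ℝ) ≤ r := by exact_mod_cast hr
  set q : ℝ := 1 / (2 * (r : ℝ)) with hq
  have hq0 : 0 < q := by positivity
  have hq1 : q ≤ 1 / 2 := by
    rw [hq]
    apply one_div_le_one_div_of_le (by norm_num)
    linarith
  refine ⟨(B ^ q)⁻¹, (k ! : ℕ) * (2 / B) ^ k, by positivity, by
    have := Nat.factorial_pos k
    positivity, fun m t ht => ?_⟩
  have ht0 : 0 < t := by linarith
  set v : ℝ := B * t ^ (2 * r) with hv
  have hv0 : 0 < v := by positivity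
  -- the power t ^ m
  have h1 : (B ^ q) ^ m * t ^ m ≤ ((m ! : ℕ) : ℝ) ^ q * Real.exp (v * q) := by
    have h2 := Real.pow_div_factorial_le_exp v hv0.le m
    have hm0 : (0 : ℝ) < ((m ! : ℕ) : ℝ) := by exact_mod_cast Nat.factorial_pos m
    rw [div_le_iff₀ hm0] at h2
    have h3 := Real.rpow_le_rpow (by positivity) h2 hq0.le
    have h4 : (v ^ m) ^ q = (B ^ q) ^ m * t ^ m := by
      rw [hv, mul_pow, Real.mul_rpow (by positivity) (by positivity)]
      congr 1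
      · rw [← Real.rpow_natCast, ← Real.rpow_natCast, ← Real.rpow_mul hB.le, ← Real.rpow_mul hB.le, mul_comm]
      · rw [← pow_mul, ← Real.rpow_natCast, ← Real.rpow_mul ht0.le, ← Real.rpow_natCast]
        congr 1
        rw [hq]
        push_cast
        field_simp
    have h5 : (Real.exp v * ((m ! : ℕ) : ℝ)) ^ q = ((m ! : ℕ) : ℝ) ^ q * Real.exp (v * q) := by
      rw [Real.mul_rpow (Real.exp_pos _).le hm0.le, ← Real.exp_mul, mul_comm]
    rw [h4, h5] at h3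
    exact h3
  -- the power t ^ k
  have h6 : t ^ k * Real.exp (-(v / 2)) ≤ (k ! : ℕ) * (2 / B) ^ k := by
    have h2 := Real.pow_div_factorial_le_exp (v / 2) (by positivity) k
    have hk0 : (0 : ℝ) < ((k ! : ℕ) : ℝ) := by exact_mod_cast Nat.factorial_pos k
    rw [div_le_iff₀ hk0] at h2
    have h3 : t ^ k ≤ (2 / B) ^ k * (v / 2) ^ k := by
      rw [← mul_pow]
      apply pow_le_pow_left₀ ht0.le
      have : 2 / B * (v / 2) = t ^ (2 * r) := by rw [hv]; field_simp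
      rw [this]
      exact le_self_pow₀ ht (by omega)
    calc t ^ k * Real.exp (-(v / 2)) ≤ ((2 / B) ^ k * (Real.exp (v / 2) * (k ! : ℕ))) * Real.exp (-(v / 2)) := by
          gcongr
          exact h3.trans (by gcongr)
      _ = (k ! : ℕ) * (2 / B) ^ k * (Real.exp (v / 2) * Real.exp (-(v / 2))) := by ring
      _ = _ := by rw [← Real.exp_add]; simp
  have h7 : t ^ m ≤ ((B ^ q)⁻¹) ^ m * (((m ! : ℕ) : ℝ) ^ q * Real.exp (v * q)) := by
    have hBq : 0 < (B ^ q) ^ m := by positivity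
    rw [inv_pow, inv_mul_eq_div, le_div_iff₀ hBq]
    linarith
  have h8 : Real.exp (v * q) ≤ Real.exp (v / 2) := by
    apply Real.exp_le_exp.2
    nlinarith
  have hfm := fact_rpow_pos q m
  calc t ^ m * t ^ k * Real.exp (-v)
      ≤ (((B ^ q)⁻¹) ^ m * (((m ! : ℕ) : ℝ) ^ q * Real.exp (v / 2))) * t ^ k * Real.exp (-v) := by
        gcongr
        exact h7.trans (by gcongr)
    _ = (((B ^ q)⁻¹) ^ m * ((m ! : ℕ) : ℝ) ^ q) * (t ^ k * (Real.exp (v / 2) * Real.exp (-v))) := by ring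
    _ = (((B ^ q)⁻¹) ^ m * ((m ! : ℕ) : ℝ) ^ q) * (t ^ k * Real.exp (-(v / 2))) := by
        rw [← Real.exp_add]; congr 3; ring
    _ ≤ (((B ^ q)⁻¹) ^ m * ((m ! : ℕ) : ℝ) ^ q) * ((k ! : ℕ) * (2 / B) ^ k) := by gcongr
    _ = _ := by ring

end Pool.Agent.H269.GV
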