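import Pool.Agent.H269.GV.Wind

set_option autoImplicit false

/-!
# The Hessian form of the function, flatness of the perturbation
-/

open Real Filter Topology Finset Asymptotics
open scoped ContDiff

namespace Pool.Agent.H269.GV

open Pool.Agent.H690.LN

namespace Dat

variable (D : Dat)

lemma hq_F (z : ℂ) : hqf D.F z = D.Qf z := by
  rw [hq_eq D.hF (D.hFx z) (D.hFy z)]
  rfl

lemma F_flat (l : ℕ) : ∃ C : ℝ, 0 ≤ C ∧ ∀ w : ℂ, ‖w‖ ≤ 1 → |D.F w - w.im ^ D.m| ≤ C * ‖w‖ ^ l := by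
  have h : ∀ j, ∃ C : ℝ, 0 ≤ C ∧ (j < D.m → ∀ x : ℝ, |x| ≤ 1 → |D.cc j x| ≤ C * |x| ^ l) := by
    intro j
    by_cases hj : j < D.m
    · obtain ⟨C, h0, h1⟩ := D.fl_cc hj l
      exact ⟨C, h0, fun _ => h1⟩
    · exact ⟨0, le_rfl, fun h => absurd h hj⟩
  choose C hC0 hC using h
  refine ⟨∑ j ∈ range D.m, C j, Finset.sum_nonneg fun j _ => hC0 j, fun w hw => ?_⟩
  have hx : |w.re| ≤ ‖w‖ := Complex.abs_re_le_norm w
  have hy : |w.im| ≤ 1 := (Complex.abs_im_le_norm w).trans hw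
  have hF : D.F w - w.im ^ D.m = ∑ j ∈ range D.m, D.cc j w.re * w.im ^ j := by unfold F; ring
  rw [hF, Finset.sum_mul]
  refine (Finset.abs_sum_le_sum_abs _ _).trans (Finset.sum_le_sum fun j hj => ?_)
  rw [abs_mul, abs_pow]
  have e1 := hC j (Finset.mem_range.1 hj) w.re (hx.trans hw)
  have e2 : |w.im| ^ j ≤ 1 := pow_le_one₀ (abs_nonneg _) hy
  have e3 : |w.re| ^ l ≤ ‖w‖ ^ l := pow_le_pow_left₀ (abs_nonneg _) hx l
  have e4 := hC0 j
  calc |D.cc j w.re| * |w.im| ^ j ≤ (C j * |w.re| ^ l) * 1 := by gcongr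
    _ ≤ C j * ‖w‖ ^ l := by rw [mul_one]; gcongr

lemma F_isBigO (l : ℕ) : (fun z : ℂ => D.F z - z.im ^ D.m) =O[𝓝 0] (fun z : ℂ => ‖z‖ ^ l) := by
  obtain ⟨C, hC0, hC⟩ := D.F_flat l
  apply IsBigO.of_bound C
  have h1 : ∀ᶠ z : ℂ in 𝓝 0, ‖z‖ < 1 := by
    have : Metric.ball (0 : ℂ) 1 ∈ 𝓝 (0 : ℂ) := Metric.ball_mem_nhds _ one_pos
    filter_upwards [this] with z hz
    simpa using hz
  filter_upwards [h1] with z hz
  rw [Real.norm_eq_abs, Real.norm_of_nonneg (pow_nonneg (norm_nonneg z) l)]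
  exact hC z hz.le

lemma dd_zero {j : ℕ} (hj : j < D.m) : D.dd j 0 = 0 := by
  match j, hj with
  | 0, _ => exact Pr_zero _
  | 1, _ => exact W_zero D.r D.a (D.m - 1) (2 * D.r + 1) (fun u => (D.r : ℝ) * D.p u)
  | 2, _ => exact W_zero D.r D.a (D.m - 2) (2 * D.r + 1) (fun u => (D.r : ℝ) * D.q u)
  | (j + 3), _ => exact (D.Cl_dd (j := j + 3) (by omega)).zero_val

lemma ee_zero {j : ℕ} (hj : j < D.m) : D.ee j 0 = 0 := by
  have hm := D.hm
  match j, hj with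
  | 0, _ => simp [ee, e0, b0, W_zero, Pr_zero]
  | (j + 1), h => exact (D.Cl_dd (j := j + 1) (by omega)).deriv_zero D.hr D.ha (by omega)

lemma cc_zero (j : ℕ) : D.cc j 0 = 0 := by
  match j with
  | 0 => exact Pr_zero _
  | 1 => exact Pr_zero _
  | 2 => exact Pr_zero _
  | (j + 3) => exact W_zero _ _ _ _ _

lemma Qf_zero : D.Qf 0 = 0 := by
  have hm := D.hm
  have h1 : D.Fxx 0 = 0 := by
    unfold Fxx
    exact Finset.sum_eq_zero fun j hj => by rw [Complex.zero_re, D.ee_zero (Finset.mem_range.1 hj), zero_mul]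
  have h2 : D.Fxy 0 = 0 := by
    unfold Fxy
    exact Finset.sum_eq_zero fun j hj => by
      rw [Complex.zero_re, D.dd_zero (Finset.mem_range.1 hj), zero_mul, mul_zero]
  have h3 : D.Fyy 0 = 0 := by
    unfold Fyy
    rw [Complex.zero_im, zero_pow (by omega), mul_zero, mul_zero, zero_add]
    exact Finset.sum_eq_zero fun j _ => by rw [Complex.zero_re, D.cc_zero, zero_mul, mul_zero]
  unfold Qf
  rw [h1, h2, h3]
  simp

end Dat

end Pool.Agent.H269.GV
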