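import Pool.Agent.H269.GV.Trig
import Pool.Agent.H269.GV.Hess

set_option autoImplicit false

/-!
# From smooth periodic profiles to trigonometric polynomials
-/

open Real Filter Topology Finset
open scoped ContDiff

namespace Pool.Agent.H269.GV

lemma pow_le_w (K i : ℕ) (hi : i ≤ K) (Y : ℝ) : |Y| ^ i ≤ 1 + |Y| ^ K :=
  Pool.Agent.H690.LN.pow_le_one_add K i hi Y

lemma exists_min_pos (n : ℕ) (s : ℕ → ℝ) (hs : ∀ i, 0 < s i) : ∃ σ : ℝ, 0 < σ ∧ ∀ i, i ≤ n → σ ≤ s i := by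
  induction n with
  | zero => exact ⟨s 0, hs 0, fun i hi => by rw [Nat.le_zero.1 hi]⟩
  | succ n ih =>
    obtain ⟨σ, h0, h1⟩ := ih
    refine ⟨min σ (s (n + 1)), lt_min h0 (hs _), fun i hi => ?_⟩
    rcases Nat.lt_or_ge n i with h | h
    · have : i = n + 1 := by omega
      rw [this]; exact min_le_right _ _
    · exact (min_le_left _ _).trans (h1 i h)

lemma RRp_per (D : Pool.Agent.H690.LN.Dat) (u Y : ℝ) : D.RRp (u + 2 * π) Y = D.RRp u Y := by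
  unfold Pool.Agent.H690.LN.Dat.RRp
  rw [D.hb.2]
  simp only [(D.hga _).2]

lemma SSp_per (D : Pool.Agent.H690.LN.Dat) (u Y : ℝ) : D.SSp (u + 2 * π) Y = D.SSp u Y := by
  unfold Pool.Agent.H690.LN.Dat.SSp
  rw [D.hq.2, D.hp.2]
  have h : ∀ j, deriv (D.ga j) (u + 2 * π) = deriv (D.ga j) u := fun j => (D.hga j).deriv.2 u
  simp only [(D.hga _).2, h]

lemma RRp_cont (D : Pool.Agent.H690.LN.Dat) : Continuous fun z : ℝ × ℝ => D.RRp z.1 z.2 := by
  unfold Pool.Agent.H690.LN.Dat.RRp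
  have hb := D.hb.1.continuous
  have hg : ∀ j, Continuous (D.ga j) := fun j => (D.hga j).1.continuous
  refine (hb.comp continuous_fst).sub (Continuous.add ?_ ?_)
  · fun_prop
  · apply continuous_finsetSum
    intro j _
    exact continuous_const.mul (((hg j).comp continuous_fst).mul (continuous_const.mul (continuous_snd.pow _)))

lemma SSp_cont (D : Pool.Agent.H690.LN.Dat) : Continuous fun z : ℝ × ℝ => D.SSp z.1 z.2 := by
  unfold Pool.Agent.H690.LN.Dat.SSp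
  have hq := D.hq.1.continuous
  have hp := D.hp.1.continuous
  have hg : ∀ j, Continuous (D.ga j) := fun j => (D.hga j).1.continuous
  have hg' : ∀ j, Continuous (deriv (D.ga j)) := fun j => (D.hga j).deriv.1.continuous
  refine (Continuous.add ?_ ?_).add (hp.comp continuous_fst)
  · apply continuous_finsetSum
    intro j _
    exact continuous_const.mul ((continuous_const.mul ((continuous_const.mul ((hg j).comp continuous_fst)).add
      ((hg' j).comp continuous_fst))).mul (continuous_snd.pow _))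
  · exact continuous_const.mul ((hq.comp continuous_fst).mul continuous_snd)

/-- quantitative form of the oscillation condition -/
lemma osc_quant {D : Pool.Agent.H690.LN.Dat} {n : ℕ} {δ κ : ℝ} (h : Pool.Agent.H690.LN.Des D n δ κ) :
    ∃ σ : ℝ, 0 < σ ∧ ∀ u Y : ℝ, ∀ i : ℕ, 1 ≤ i → i ≤ n → |Y - i| ≤ δ → |D.RRp u Y| ≤ κ * D.ww Y →
      σ ≤ (-1) ^ (n + i) * D.SSp u Y := by
  have hpi : (0 : ℝ) < 2 * π := by positivity
  have key : ∀ i : ℕ, ∃ σ : ℝ, 0 < σ ∧ (1 ≤ i → i ≤ n → ∀ u Y : ℝ, |Y - i| ≤ δ → |D.RRp u Y| ≤ κ * D.ww Y →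
      σ ≤ (-1) ^ (n + i) * D.SSp u Y) := by
    intro i
    by_cases hi : 1 ≤ i ∧ i ≤ n
    · set K : Set (ℝ × ℝ) := {z | z.1 ∈ Set.Icc 0 (2 * π) ∧ z.2 ∈ Set.Icc ((i : ℝ) - δ) (i + δ) ∧
        |D.RRp z.1 z.2| ≤ κ * D.ww z.2} with hK
      have hww : Continuous D.ww := by unfold Pool.Agent.H690.LN.Dat.ww; fun_prop
      have hKc : IsCompact K := by
        have h1 : IsCompact (Set.Icc (0 : ℝ) (2 * π) ×ˢ Set.Icc ((i : ℝ) - δ) (i + δ)) :=
          isCompact_Icc.prod isCompact_Icc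
        have h2 : IsClosed {z : ℝ × ℝ | |D.RRp z.1 z.2| ≤ κ * D.ww z.2} :=
          isClosed_le (RRp_cont D).abs (continuous_const.mul (hww.comp continuous_snd))
        have h3 : K = (Set.Icc (0 : ℝ) (2 * π) ×ˢ Set.Icc ((i : ℝ) - δ) (i + δ)) ∩
            {z : ℝ × ℝ | |D.RRp z.1 z.2| ≤ κ * D.ww z.2} := by
          ext z
          simp only [hK, Set.mem_setOf_eq, Set.mem_inter_iff, Set.mem_prod]
          tauto
        rw [h3]
        exact h1.inter_right h2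
      have hpos : ∀ z ∈ K, (0 : ℝ) < (-1) ^ (n + i) * D.SSp z.1 z.2 := by
        rintro z ⟨_, hz2, hz3⟩
        exact h.osc z.1 z.2 i hi.1 hi.2 (by rw [abs_le]; constructor <;> linarith [hz2.1, hz2.2]) hz3
      obtain ⟨σ, h0, h1⟩ := hKc.exists_forall_le' (f := fun z : ℝ × ℝ => (-1) ^ (n + i) * D.SSp z.1 z.2)
        (continuous_const.mul (SSp_cont D)).continuousOn hpos
      refine ⟨σ, h0, fun _ _ u Y hY hR => ?_⟩
      -- reduce to a period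
      have hper : Function.Periodic (fun u => (D.RRp u Y, D.SSp u Y)) (2 * π) := fun u => by
        simp only [RRp_per, SSp_per]
      obtain ⟨y, hy, hyu⟩ := hper.exists_mem_Ico₀ hpi u
      have e1 : D.RRp u Y = D.RRp y Y := congrArg Prod.fst hyu
      have e2 : D.SSp u Y = D.SSp y Y := congrArg Prod.snd hyu
      rw [e2]
      rw [e1] at hR
      have hY' := abs_le.1 hY
      exact h1 (y, Y) ⟨⟨hy.1, hy.2.le⟩, ⟨by linarith [hY'.1], by linarith [hY'.2]⟩, hR⟩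
    · exact ⟨1, one_pos, fun h1 h2 => absurd ⟨h1, h2⟩ hi⟩
  choose s hs hs' using key
  obtain ⟨σ, h0, h1⟩ := exists_min_pos n s hs
  exact ⟨σ, h0, fun u Y i hi1 hi2 hY hR => (h1 i hi2).trans (hs' i hi1 hi2 u Y hY hR)⟩

/-- the profiles can be taken to be trigonometric polynomials, and the phase any power -/
theorem exists_trig {D : Pool.Agent.H690.LN.Dat} {n : ℕ} {δ κ : ℝ} (h : Pool.Agent.H690.LN.Des D n δ κ)
    {r : ℕ} (hr : 1 ≤ r) : ∃ (D' : Dat) (κ' : ℝ), D'.r = r ∧ D'.m = n + 4 ∧ Des D' n δ κ' ∧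
      (∀ j, D'.ga j ∈ TPs) ∧ D'.q ∈ TPs ∧ D'.p ∈ TPs ∧ D'.b ∈ TPs := by
  obtain ⟨σ, hσ0, hσ⟩ := osc_quant h
  have hκ := h.κ0
  set m := D.m with hm
  have hm5 := D.hm
  have ha := D.ha
  set C1 : ℝ := 1 + ∑ j ∈ Ico 3 m, (j : ℝ) * ((j - 1 : ℕ) : ℝ) with hC1
  set C2 : ℝ := 3 + ∑ j ∈ Ico 3 m, (j : ℝ) * (2 * (((m - j : ℕ) : ℝ) * D.a + 1)) with hC2
  set Mw : ℝ := 1 + ((n : ℝ) + 1) ^ (m - 2) with hMw
  have C10 : 0 < C1 := by
    have : 0 ≤ ∑ j ∈ Ico 3 m, (j : ℝ) * ((j - 1 : ℕ) : ℝ) := Finset.sum_nonneg fun j _ => by positivity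
    linarith
  have C20 : 0 < C2 := by
    have : 0 ≤ ∑ j ∈ Ico 3 m, (j : ℝ) * (2 * (((m - j : ℕ) : ℝ) * D.a + 1)) := Finset.sum_nonneg fun j _ => by positivity
    linarith
  have Mw0 : 0 < Mw := by positivity
  obtain ⟨ε, hε0, hε1, hε2⟩ : ∃ ε : ℝ, 0 < ε ∧ ε * C1 ≤ κ / 2 ∧ ε * C2 * Mw < σ := by
    refine ⟨min (κ / (2 * C1)) (σ / (2 * (C2 * Mw))), by positivity, ?_, ?_⟩
    · calc min (κ / (2 * C1)) (σ / (2 * (C2 * Mw))) * C1 ≤ κ / (2 * C1) * C1 := by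
            gcongr; exact min_le_left _ _
        _ = κ / 2 := by field_simp
    · calc min (κ / (2 * C1)) (σ / (2 * (C2 * Mw))) * C2 * Mw ≤ σ / (2 * (C2 * Mw)) * C2 * Mw := by
            gcongr; exact min_le_right _ _
        _ = σ / 2 := by field_simp
        _ < σ := by linarith
  have hga : ∀ j, ∃ T ∈ TPs, ∀ u, |D.ga j u - T u| ≤ ε ∧ |deriv (D.ga j) u - deriv T u| ≤ ε := fun j =>
    approx1 (D.hga j) hε0
  choose G hG hG' using hga
  obtain ⟨q', hq, hq'⟩ := approx0 D.hq.1.continuous D.hq.2 hε0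
  obtain ⟨p', hp, hp'⟩ := approx0 D.hp.1.continuous D.hp.2 hε0
  obtain ⟨b', hb, hb'⟩ := approx0 D.hb.1.continuous D.hb.2 hε0
  set D' : Dat := ⟨m, r, D.a, G, q', p', b', hm5, hr, ha, fun j => TPs_ps (hG j), TPs_ps hq, TPs_ps hp, TPs_ps hb⟩
    with hD'
  have hww : ∀ Y, D'.ww Y = D.ww Y := fun Y => rfl
  have hw1 : ∀ Y, 1 ≤ D.ww Y := fun Y => D.one_le_ww Y
  have hpw : ∀ (i : ℕ) (Y : ℝ), i ≤ m - 2 → |Y| ^ i ≤ D.ww Y := fun i Y hi => pow_le_w (m - 2) i hi Y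
  -- the real part
  have hRR : ∀ u Y, |D'.RRp u Y - D.RRp u Y| ≤ κ / 2 * D.ww Y := by
    intro u Y
    have e : D'.RRp u Y - D.RRp u Y = -(D.b u - b' u) +
        ∑ j ∈ Ico 3 m, (j : ℝ) * ((D.ga j u - G j u) * (((j - 1 : ℕ) : ℝ) * Y ^ (j - 1 - 1))) := by
      show (b' u - ((m : ℝ) * (((m - 1 : ℕ) : ℝ) * Y ^ (m - 1 - 1))
        + ∑ j ∈ Ico 3 m, (j : ℝ) * (G j u * (((j - 1 : ℕ) : ℝ) * Y ^ (j - 1 - 1))))) -
        (D.b u - ((m : ℝ) * (((m - 1 : ℕ) : ℝ) * Y ^ (m - 1 - 1))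
        + ∑ j ∈ Ico 3 m, (j : ℝ) * (D.ga j u * (((j - 1 : ℕ) : ℝ) * Y ^ (j - 1 - 1))))) = _
      have h1 : ∑ j ∈ Ico 3 m, (j : ℝ) * ((D.ga j u - G j u) * (((j - 1 : ℕ) : ℝ) * Y ^ (j - 1 - 1)))
          = ∑ j ∈ Ico 3 m, (j : ℝ) * (D.ga j u * (((j - 1 : ℕ) : ℝ) * Y ^ (j - 1 - 1)))
          - ∑ j ∈ Ico 3 m, (j : ℝ) * (G j u * (((j - 1 : ℕ) : ℝ) * Y ^ (j - 1 - 1))) := by
        rw [← Finset.sum_sub_distrib]
        exact Finset.sum_congr rfl fun j _ => by ring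
      rw [h1]
      ring
    rw [e]
    have h2 : |∑ j ∈ Ico 3 m, (j : ℝ) * ((D.ga j u - G j u) * (((j - 1 : ℕ) : ℝ) * Y ^ (j - 1 - 1)))|
        ≤ ∑ j ∈ Ico 3 m, (j : ℝ) * ((j - 1 : ℕ) : ℝ) * (ε * D.ww Y) := by
      refine (Finset.abs_sum_le_sum_abs _ _).trans (Finset.sum_le_sum fun j hj => ?_)
      rw [Finset.mem_Ico] at hj
      rw [abs_mul, abs_mul, abs_mul, abs_pow, Nat.abs_cast, Nat.abs_cast]
      have h3 := (hG' j u).1
      have h4 := hpw (j - 1 - 1) Y (by omega)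
      calc (j : ℝ) * (|D.ga j u - G j u| * (((j - 1 : ℕ) : ℝ) * |Y| ^ (j - 1 - 1)))
          ≤ (j : ℝ) * (ε * (((j - 1 : ℕ) : ℝ) * D.ww Y)) := by gcongr
        _ = _ := by ring
    rw [← Finset.sum_mul] at h2
    have h5 := hb' u
    have h6 : |-(D.b u - b' u)| ≤ ε * D.ww Y := by
      rw [abs_neg]
      calc |D.b u - b' u| ≤ ε * 1 := by linarith
        _ ≤ ε * D.ww Y := by gcongr; exact hw1 Y
    refine (abs_add_le _ _).trans ?_
    have h7 : 0 < D.ww Y := D.ww_pos Y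
    calc _ ≤ ε * D.ww Y + (∑ j ∈ Ico 3 m, (j : ℝ) * ((j - 1 : ℕ) : ℝ)) * (ε * D.ww Y) := add_le_add h6 h2
      _ = ε * C1 * D.ww Y := by rw [hC1]; ring
      _ ≤ κ / 2 * D.ww Y := by gcongr
  -- the imaginary part
  have hSS : ∀ u Y, |D'.SSp u Y - D.SSp u Y| ≤ ε * C2 * D.ww Y := by
    intro u Y
    have e : D'.SSp u Y - D.SSp u Y = -(∑ j ∈ Ico 3 m, (j : ℝ) * ((2 * (((m - j : ℕ) : ℝ) * D.a * (D.ga j u - G j u)
          + (deriv (D.ga j) u - deriv (G j) u))) * Y ^ (j - 1))) + (-(2 * ((D.q u - q' u) * Y)) + -(D.p u - p' u)) := by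
      show ((∑ j ∈ Ico 3 m, (j : ℝ) * ((2 * (((m - j : ℕ) : ℝ) * D.a * G j u + deriv (G j) u)) * Y ^ (j - 1)))
        + 2 * (q' u * Y) + p' u) - ((∑ j ∈ Ico 3 m, (j : ℝ) * ((2 * (((m - j : ℕ) : ℝ) * D.a * D.ga j u
        + deriv (D.ga j) u)) * Y ^ (j - 1))) + 2 * (D.q u * Y) + D.p u) = _
      have h1 : ∑ j ∈ Ico 3 m, (j : ℝ) * ((2 * (((m - j : ℕ) : ℝ) * D.a * (D.ga j u - G j u)
          + (deriv (D.ga j) u - deriv (G j) u))) * Y ^ (j - 1))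
          = ∑ j ∈ Ico 3 m, (j : ℝ) * ((2 * (((m - j : ℕ) : ℝ) * D.a * D.ga j u + deriv (D.ga j) u)) * Y ^ (j - 1))
          - ∑ j ∈ Ico 3 m, (j : ℝ) * ((2 * (((m - j : ℕ) : ℝ) * D.a * G j u + deriv (G j) u)) * Y ^ (j - 1)) := by
        rw [← Finset.sum_sub_distrib]
        exact Finset.sum_congr rfl fun j _ => by ring
      rw [h1]
      ring
    rw [e]
    have hw := hw1 Y
    have h2 : |∑ j ∈ Ico 3 m, (j : ℝ) * ((2 * (((m - j : ℕ) : ℝ) * D.a * (D.ga j u - G j u)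
          + (deriv (D.ga j) u - deriv (G j) u))) * Y ^ (j - 1))|
        ≤ ∑ j ∈ Ico 3 m, (j : ℝ) * (2 * (((m - j : ℕ) : ℝ) * D.a + 1)) * (ε * D.ww Y) := by
      refine (Finset.abs_sum_le_sum_abs _ _).trans (Finset.sum_le_sum fun j hj => ?_)
      rw [Finset.mem_Ico] at hj
      rw [abs_mul, abs_mul, abs_mul, abs_pow, Nat.abs_cast, abs_of_pos (by norm_num : (0 : ℝ) < 2)]
      have h3 := (hG' j u).1
      have h3' := (hG' j u).2
      have h4 := hpw (j - 1) Y (by omega)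
      have h5 : |((m - j : ℕ) : ℝ) * D.a * (D.ga j u - G j u) + (deriv (D.ga j) u - deriv (G j) u)|
          ≤ (((m - j : ℕ) : ℝ) * D.a + 1) * ε := by
        refine (abs_add_le _ _).trans ?_
        rw [abs_mul, abs_of_nonneg (by positivity : (0 : ℝ) ≤ ((m - j : ℕ) : ℝ) * D.a)]
        have : ((m - j : ℕ) : ℝ) * D.a * |D.ga j u - G j u| ≤ ((m - j : ℕ) : ℝ) * D.a * ε := by gcongr
        linarith
      calc (j : ℝ) * (2 * |((m - j : ℕ) : ℝ) * D.a * (D.ga j u - G j u) + (deriv (D.ga j) u - deriv (G j) u)|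
            * |Y| ^ (j - 1))
          ≤ (j : ℝ) * (2 * ((((m - j : ℕ) : ℝ) * D.a + 1) * ε) * D.ww Y) := by gcongr
        _ = _ := by ring
    rw [← Finset.sum_mul] at h2
    have h6 : |-(2 * ((D.q u - q' u) * Y))| ≤ 2 * (ε * D.ww Y) := by
      rw [abs_neg, abs_mul, abs_mul, abs_of_pos (by norm_num : (0 : ℝ) < 2)]
      have h7 := hpw 1 Y (by omega)
      rw [pow_one] at h7
      have := hq' u
      gcongr
    have h8 : |-(D.p u - p' u)| ≤ ε * D.ww Y := by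
      rw [abs_neg]
      calc |D.p u - p' u| ≤ ε * 1 := by linarith [hp' u]
        _ ≤ ε * D.ww Y := by gcongr
    refine (abs_add_le _ _).trans ?_
    rw [abs_neg]
    calc _ ≤ (∑ j ∈ Ico 3 m, (j : ℝ) * (2 * (((m - j : ℕ) : ℝ) * D.a + 1))) * (ε * D.ww Y)
          + (2 * (ε * D.ww Y) + ε * D.ww Y) :=
          add_le_add h2 ((abs_add_le _ _).trans (add_le_add h6 h8))
      _ = ε * C2 * D.ww Y := by rw [hC2]; ring
  refine ⟨D', κ / 2, rfl, h.hmn, ⟨h.hmn, h.hn, h.δ0, h.δ1, by positivity, by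
    have := h.κ1
    show κ / 2 ≤ (m : ℝ) * ((m - 1 : ℕ) : ℝ)
    linarith, ?_, ?_⟩, hG, hq, hp, hb⟩
  · intro u Y i hi hl hu
    rw [hww]
    have h1 := h.gap u Y i hi hl hu
    have h2 := abs_le.1 (hRR u Y)
    rcases neg_one_pow_eq_or ℝ (n + i + 1) with h3 | h3
    · rw [h3] at h1 ⊢; linarith [h2.1, h2.2]
    · rw [h3] at h1 ⊢; linarith [h2.1, h2.2]
  · intro u Y i hi1 hin hY hR
    rw [hww] at hR
    have h2 := abs_le.1 (hRR u Y)
    have hR' := abs_le.1 hR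
    have h3 : |D.RRp u Y| ≤ κ * D.ww Y := by
      rw [abs_le]; constructor <;> linarith [h2.1, h2.2, hR'.1, hR'.2]
    have h4 := hσ u Y i hi1 hin hY h3
    have h5 := abs_le.1 (hSS u Y)
    have hYn : |Y| ≤ n + 1 := by
      have hin' : (i : ℝ) ≤ n := by exact_mod_cast hin
      have hi1' : (1 : ℝ) ≤ i := by exact_mod_cast hi1
      have hYi := abs_le.1 hY
      have := h.δ1
      rw [abs_le]; constructor <;> linarith [hYi.1, hYi.2]
    have hwM : D.ww Y ≤ Mw := by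
      have := pow_le_pow_left₀ (abs_nonneg Y) hYn (m - 2)
      show 1 + |Y| ^ (m - 2) ≤ Mw
      rw [hMw]; linarith
    have h6 : ε * C2 * D.ww Y ≤ ε * C2 * Mw := by gcongr
    rcases neg_one_pow_eq_or ℝ (n + i) with h7 | h7
    · rw [h7] at h4 ⊢; linarith [h5.1, h5.2]
    · rw [h7] at h4 ⊢; linarith [h5.1, h5.2]

end Pool.Agent.H269.GV
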