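import Pool.Agent.H269.GV.Cau

set_option autoImplicit false

/-!
# Gevrey estimates in two variables
-/

open Real Filter Topology Finset
open scoped ContDiff Nat

namespace Pool.Agent.H269.GV

open Pool.Agent.H690.LN

/-- Gevrey bounds of order `s` on the closed unit disc -/
def Gv2 (s : ℝ) (f : ℂ → ℝ) : Prop := ContDiff ℝ ∞ f ∧ ∃ C : ℝ, 1 ≤ C ∧ ∀ (k : ℕ) (z : ℂ), ‖z‖ ≤ 1 →
  ‖iteratedFDeriv ℝ k f z‖ ≤ C ^ (k + 1) * ((k ! : ℕ) : ℝ) ^ s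

lemma Gv2.add {s : ℝ} {f g : ℂ → ℝ} (hf : Gv2 s f) (hg : Gv2 s g) : Gv2 s (fun z => f z + g z) := by
  obtain ⟨hf0, C, hC, h1⟩ := hf
  obtain ⟨hg0, D, hD, h2⟩ := hg
  refine ⟨hf0.add hg0, C + D, by linarith, fun k x hx => ?_⟩
  have e : iteratedFDeriv ℝ k (fun z => f z + g z) x = iteratedFDeriv ℝ k f x + iteratedFDeriv ℝ k g x :=
    iteratedFDeriv_add_apply (cda hf0 k x) (cda hg0 k x)
  rw [e]
  have h3 : C ^ (k + 1) + D ^ (k + 1) ≤ (C + D) ^ (k + 1) := pow_add_pow_le (by linarith) (by linarith) (by omega)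
  have h4 := fact_rpow_pos s k
  calc _ ≤ ‖iteratedFDeriv ℝ k f x‖ + ‖iteratedFDeriv ℝ k g x‖ := norm_add_le _ _
    _ ≤ C ^ (k + 1) * ((k ! : ℕ) : ℝ) ^ s + D ^ (k + 1) * ((k ! : ℕ) : ℝ) ^ s := add_le_add (h1 k x hx) (h2 k x hx)
    _ = (C ^ (k + 1) + D ^ (k + 1)) * ((k ! : ℕ) : ℝ) ^ s := by ring
    _ ≤ _ := by gcongr

lemma Gv2_clm {s : ℝ} {c : ℝ → ℝ} (hc : Gv s c) (L : ℂ →L[ℝ] ℝ) (hL : ‖L‖ ≤ 1) : Gv2 s (fun z => c (L z)) := by
  obtain ⟨hc0, C, hC, h1⟩ := hc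
  refine ⟨hc0.comp L.contDiff, C, hC, fun k z hz => ?_⟩
  have e : iteratedFDeriv ℝ k (fun z => c (L z)) z = (iteratedFDeriv ℝ k c (L z)).compContinuousLinearMap fun _ => L :=
    L.iteratedFDeriv_comp_right hc0 z (by exact_mod_cast le_top)
  rw [e]
  refine (ContinuousMultilinearMap.norm_compContinuousLinearMap_le _ _).trans ?_
  rw [norm_iteratedFDeriv_eq_norm_iteratedDeriv, Real.norm_eq_abs]
  have h2 : |L z| ≤ 1 := by
    rw [← Real.norm_eq_abs]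
    refine (L.le_opNorm z).trans ?_
    have := norm_nonneg L
    have := norm_nonneg z
    nlinarith
  have h3 : ∏ _i : Fin k, ‖L‖ ≤ 1 := by
    rw [Finset.prod_const, Finset.card_univ, Fintype.card_fin]
    exact pow_le_one₀ (norm_nonneg _) hL
  calc |iteratedDeriv k c (L z)| * ∏ _i : Fin k, ‖L‖ ≤ |iteratedDeriv k c (L z)| * 1 := by gcongr
    _ ≤ _ := by rw [mul_one]; exact h1 k _ h2

lemma Gv2_re {s : ℝ} {c : ℝ → ℝ} (hc : Gv s c) : Gv2 s (fun z => c z.re) :=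
  Gv2_clm hc Complex.reCLM Complex.reCLM_norm.le

lemma Gv2_im {s : ℝ} {c : ℝ → ℝ} (hc : Gv s c) : Gv2 s (fun z => c z.im) :=
  Gv2_clm hc Complex.imCLM Complex.imCLM_norm.le

lemma Gv2.mul {s : ℝ} (hs : 0 ≤ s) {f g : ℂ → ℝ} (hf : Gv2 s f) (hg : Gv2 s g) : Gv2 s (fun z => f z * g z) := by
  obtain ⟨hf0, C1, hC1, h1⟩ := hf
  obtain ⟨hg0, C2, hC2, h2⟩ := hg
  obtain ⟨C, hC⟩ : ∃ C : ℝ, C = C1 * C2 := ⟨_, rfl⟩
  have hC0 : 1 ≤ C := by nlinarith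
  have hCC1 : C1 ≤ C := by nlinarith
  have hCC2 : C2 ≤ C := by nlinarith
  refine ⟨hf0.mul hg0, 2 * C ^ 2, by nlinarith, fun k z hz => ?_⟩
  refine (norm_iteratedFDeriv_mul_le hf0 hg0 z (n := k) (by exact_mod_cast le_top)).trans ?_
  have h4 := fact_rpow_pos s k
  have hterm : ∀ i ∈ range (k + 1), (k.choose i : ℝ) * ‖iteratedFDeriv ℝ i f z‖ * ‖iteratedFDeriv ℝ (k - i) g z‖
      ≤ (k.choose i : ℝ) * (C ^ (k + 2) * ((k ! : ℕ) : ℝ) ^ s) := by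
    intro i hi
    have hik : i ≤ k := by rw [Finset.mem_range] at hi; omega
    have h5 : ‖iteratedFDeriv ℝ i f z‖ ≤ C ^ (i + 1) * ((i ! : ℕ) : ℝ) ^ s := by
      refine (h1 i z hz).trans ?_
      have := fact_rpow_pos s i
      gcongr
    have h6 : ‖iteratedFDeriv ℝ (k - i) g z‖ ≤ C ^ (k - i + 1) * (((k - i) ! : ℕ) : ℝ) ^ s := by
      refine (h2 (k - i) z hz).trans ?_
      have := fact_rpow_pos s (k - i)
      gcongr
    have h7 : ((i ! : ℕ) : ℝ) ^ s * (((k - i) ! : ℕ) : ℝ) ^ s ≤ ((k ! : ℕ) : ℝ) ^ s := by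
      rw [← Real.mul_rpow (by positivity) (by positivity)]
      apply Real.rpow_le_rpow (by positivity) _ hs
      have h8 : i ! * (k - i) ! ∣ k ! := Nat.factorial_mul_factorial_dvd_factorial hik
      exact_mod_cast Nat.le_of_dvd (Nat.factorial_pos k) h8
    have h9 := fact_rpow_pos s i
    have h10 := fact_rpow_pos s (k - i)
    calc (k.choose i : ℝ) * ‖iteratedFDeriv ℝ i f z‖ * ‖iteratedFDeriv ℝ (k - i) g z‖
        ≤ (k.choose i : ℝ) * (C ^ (i + 1) * ((i ! : ℕ) : ℝ) ^ s) * (C ^ (k - i + 1) * (((k - i) ! : ℕ) : ℝ) ^ s) := by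
          gcongr
      _ = (k.choose i : ℝ) * ((C ^ (i + 1) * C ^ (k - i + 1)) * (((i ! : ℕ) : ℝ) ^ s * (((k - i) ! : ℕ) : ℝ) ^ s)) := by
          ring
      _ ≤ (k.choose i : ℝ) * ((C ^ (i + 1) * C ^ (k - i + 1)) * ((k ! : ℕ) : ℝ) ^ s) := by gcongr
      _ = _ := by
          have h14 : i + 1 + (k - i + 1) = k + 2 := by omega
          rw [← pow_add, h14]
  refine (Finset.sum_le_sum hterm).trans ?_
  rw [← Finset.sum_mul]
  have h11 : ∑ i ∈ range (k + 1), (k.choose i : ℝ) = 2 ^ k := by exact_mod_cast Nat.sum_range_choose k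
  rw [h11, mul_pow 2 (C ^ 2), ← pow_mul C]
  have h12 : (2 : ℝ) ^ k ≤ 2 ^ (k + 1) := pow_le_pow_right₀ (by norm_num) (by omega)
  have h13 : C ^ (k + 2) ≤ C ^ (2 * (k + 1)) := pow_le_pow_right₀ hC0 (by omega)
  calc (2 : ℝ) ^ k * (C ^ (k + 2) * ((k ! : ℕ) : ℝ) ^ s) ≤ 2 ^ (k + 1) * (C ^ (2 * (k + 1)) * ((k ! : ℕ) : ℝ) ^ s) := by
        gcongr
    _ = _ := by ring

lemma Gv2_const {s : ℝ} (c : ℝ) : Gv2 s (fun _ => c) := Gv2_re (c := fun _ => c) (Gv_const c)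

lemma Gv2_impow {s : ℝ} (hs : 0 ≤ s) (j : ℕ) : Gv2 s (fun z => z.im ^ j) := by
  induction j with
  | zero => simpa using Gv2_const (s := s) 1
  | succ j ih =>
    have h := ih.mul hs (Gv2_im Gv_id)
    simpa [pow_succ] using h

lemma Gv2.sum {s : ℝ} {ι : Type*} (t : Finset ι) (f : ι → ℂ → ℝ) (h : ∀ i ∈ t, Gv2 s (f i)) :
    Gv2 s (fun z => ∑ i ∈ t, f i z) := by
  classical
  induction t using Finset.induction_on with
  | empty => simpa using Gv2_const (s := s) 0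
  | insert a t ha ih =>
    simp only [Finset.sum_insert ha]
    exact (h a (Finset.mem_insert_self a t)).add (ih fun i hi => h i (Finset.mem_insert_of_mem hi))

namespace Dat

variable (D : Dat)

lemma gv_cc (hga : ∀ j, D.ga j ∈ TPs) (hq : D.q ∈ TPs) (hp : D.p ∈ TPs) (hb : D.b ∈ TPs) {j : ℕ} (hj : j < D.m) :
    Gv (1 + 1 / (2 * (D.r : ℝ))) (D.cc j) := by
  have hm := D.hm
  have hr : (1 : ℝ) ≤ D.r := by exact_mod_cast D.hr
  have hs : 0 ≤ 1 + 1 / (2 * (D.r : ℝ)) := by positivity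
  have h1 : Gv (1 + 1 / (2 * (D.r : ℝ))) (W D.r D.a (D.m - 1) (2 * D.r + 1) (fun u => (D.r : ℝ) * D.p u)) :=
    Gv_W D.hr D.ha (by omega) (TPs.smul_mem (D.r : ℝ) hp) _
  have h2 : Gv (1 + 1 / (2 * (D.r : ℝ))) (W D.r D.a (D.m - 2) (2 * D.r + 1) (fun u => (D.r : ℝ) * D.q u)) :=
    Gv_W D.hr D.ha (by omega) (TPs.smul_mem (D.r : ℝ) hq) _
  have h0 : Gv (1 + 1 / (2 * (D.r : ℝ))) D.e0 :=
    (Gv_W D.hr D.ha (by omega) hb 0 : Gv _ D.b0).add ((h2.pr hs).const_mul 2)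
  match j, hj with
  | 0, _ => exact (h0.pr hs).pr hs
  | 1, _ => exact h1.pr hs
  | 2, _ => exact h2.pr hs
  | (j + 3), h => exact Gv_W D.hr D.ha (by omega) (hga (j + 3)) 0

theorem gv_F (hga : ∀ j, D.ga j ∈ TPs) (hq : D.q ∈ TPs) (hp : D.p ∈ TPs) (hb : D.b ∈ TPs) :
    Gv2 (1 + 1 / (2 * (D.r : ℝ))) D.F := by
  have hr : (1 : ℝ) ≤ D.r := by exact_mod_cast D.hr
  have hs : 0 ≤ 1 + 1 / (2 * (D.r : ℝ)) := by positivity
  exact (Gv2_impow hs D.m).add (Gv2.sum _ _ fun j hj =>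
    (Gv2_re (D.gv_cc hga hq hp hb (Finset.mem_range.1 hj))).mul hs (Gv2_impow hs j))

end Dat

end Pool.Agent.H269.GV
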