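import Pool.Agent.H690.LN.Per

set_option autoImplicit false

/-!
# Trigonometric polynomials and approximation
-/

open Real Filter Topology
open scoped ContDiff

namespace Pool.Agent.H269.GV

open Pool.Agent.H690.LN

/-- the space of real trigonometric polynomials -/
noncomputable def TPs : Submodule ℝ (ℝ → ℝ) :=
  Submodule.span ℝ ({f | ∃ n : ℤ, f = fun u => Real.cos (n * u)} ∪ {f | ∃ n : ℤ, f = fun u => Real.sin (n * u)})

lemma cos_mem (n : ℤ) : (fun u => Real.cos (n * u)) ∈ TPs := Submodule.subset_span (Or.inl ⟨n, rfl⟩)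
lemma sin_mem (n : ℤ) : (fun u => Real.sin (n * u)) ∈ TPs := Submodule.subset_span (Or.inr ⟨n, rfl⟩)
lemma const_mem (c : ℝ) : (fun _ : ℝ => c) ∈ TPs := by
  have h := TPs.smul_mem c (cos_mem 0)
  convert h using 1
  funext u
  simp

/-- induction principle -/
lemma TPs_ind {p : (ℝ → ℝ) → Prop} (hc : ∀ n : ℤ, p fun u => Real.cos (n * u)) (hs : ∀ n : ℤ, p fun u => Real.sin (n * u))
    (hz : p fun _ => 0) (ha : ∀ f g, p f → p g → p fun u => f u + g u) (hm : ∀ (c : ℝ) f, p f → p fun u => c * f u)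
    {f : ℝ → ℝ} (hf : f ∈ TPs) : p f := by
  unfold TPs at hf
  induction hf using Submodule.span_induction with
  | mem x hx =>
    rcases hx with ⟨n, rfl⟩ | ⟨n, rfl⟩
    · exact hc n
    · exact hs n
  | zero => exact hz
  | add x y _ _ hx hy => exact ha x y hx hy
  | smul c x _ hx => exact hm c x hx

lemma TPs_ps {f : ℝ → ℝ} (hf : f ∈ TPs) : PS f := by
  refine TPs_ind (p := PS) (fun n => ⟨by fun_prop, fun u => ?_⟩) (fun n => ⟨by fun_prop, fun u => ?_⟩)
    (PS.const 0) (fun f g h1 h2 => h1.add h2) (fun c f h => (PS.const c).mul h) hf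
  · show Real.cos (n * (u + 2 * π)) = Real.cos (n * u)
    rw [mul_add, Real.cos_add_int_mul_two_pi]
  · show Real.sin (n * (u + 2 * π)) = Real.sin (n * u)
    rw [mul_add, Real.sin_add_int_mul_two_pi]

/-- primitives -/
lemma TPs_prim {f : ℝ → ℝ} (hf : f ∈ TPs) : ∃ (c : ℝ) (S : ℝ → ℝ), S ∈ TPs ∧ ∀ u, HasDerivAt S (f u - c) u := by
  refine TPs_ind (p := fun f => ∃ (c : ℝ) (S : ℝ → ℝ), S ∈ TPs ∧ ∀ u, HasDerivAt S (f u - c) u) ?_ ?_ ?_ ?_ ?_ hf
  · intro n
    by_cases hn : n = 0
    · subst hn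
      refine ⟨1, fun _ => 0, const_mem 0, fun u => ?_⟩
      simpa using hasDerivAt_const u (0 : ℝ)
    · have hn' : (n : ℝ) ≠ 0 := by exact_mod_cast hn
      refine ⟨0, _, TPs.smul_mem (1 / (n : ℝ)) (sin_mem n), fun u => ?_⟩
      have h1 : HasDerivAt (fun u : ℝ => (n : ℝ) * u) n u := by
        simpa using (hasDerivAt_id u).const_mul (n : ℝ)
      have h2 := (h1.sin).const_mul (1 / (n : ℝ))
      refine (h2.congr_deriv ?_)
      field_simp
      ring
  · intro n
    by_cases hn : n = 0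
    · subst hn
      refine ⟨0, fun _ => 0, const_mem 0, fun u => ?_⟩
      simpa using hasDerivAt_const u (0 : ℝ)
    · have hn' : (n : ℝ) ≠ 0 := by exact_mod_cast hn
      refine ⟨0, _, TPs.smul_mem (-(1 / (n : ℝ))) (cos_mem n), fun u => ?_⟩
      have h1 : HasDerivAt (fun u : ℝ => (n : ℝ) * u) n u := by
        simpa using (hasDerivAt_id u).const_mul (n : ℝ)
      have h2 := (h1.cos).const_mul (-(1 / (n : ℝ)))
      refine (h2.congr_deriv ?_)
      field_simp
      ring
  · exact ⟨0, fun _ => 0, const_mem 0, fun u => by simpa using hasDerivAt_const u (0 : ℝ)⟩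
  · rintro f g ⟨c, S, hS, h1⟩ ⟨d, T, hT, h2⟩
    refine ⟨c + d, _, TPs.add_mem hS hT, fun u => ?_⟩
    refine ((h1 u).add (h2 u)).congr_deriv ?_
    ring
  · rintro a f ⟨c, S, hS, h1⟩
    refine ⟨a * c, _, TPs.smul_mem a hS, fun u => ?_⟩
    refine ((h1 u).const_mul a).congr_deriv ?_
    ring

/-- uniform approximation -/
lemma approx0 {h : ℝ → ℝ} (hc : Continuous h) (hp : ∀ u, h (u + 2 * π) = h u) {ε : ℝ} (hε : 0 < ε) :
    ∃ T ∈ TPs, ∀ u, |h u - T u| ≤ ε := by
  have : Fact (0 < 2 * π) := ⟨by positivity⟩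
  have hper : Function.Periodic (fun u => ((h u : ℝ) : ℂ)) (2 * π) := fun u => by simp only [hp]
  have hcont : Continuous (hper.lift : AddCircle (2 * π) → ℂ) := by
    rw [QuotientAddGroup.isOpenQuotientMap_mk.isQuotientMap.continuous_iff]
    exact Complex.continuous_ofReal.comp hc
  set H : C(AddCircle (2 * π), ℂ) := ⟨hper.lift, hcont⟩ with hH
  have hmem : H ∈ (Submodule.span ℂ (Set.range (@fourier (2 * π)))).topologicalClosure := by
    rw [span_fourier_closure_eq_top]; trivial
  have hmem' : H ∈ closure ((Submodule.span ℂ (Set.range (@fourier (2 * π))) : Submodule ℂ _) : Set C(AddCircle (2 * π), ℂ)) :=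
    hmem
  obtain ⟨g, hg, hd⟩ := Metric.mem_closure_iff.1 hmem' ε hε
  have key : (fun u : ℝ => (g (u : AddCircle (2 * π))).re) ∈ TPs ∧ (fun u : ℝ => (g (u : AddCircle (2 * π))).im) ∈ TPs := by
    have hg' : g ∈ Submodule.span ℂ (Set.range (@fourier (2 * π))) := hg
    clear hd hg
    induction hg' using Submodule.span_induction with
    | mem x hx =>
      obtain ⟨n, rfl⟩ := hx
      have e : ∀ u : ℝ, fourier n (u : AddCircle (2 * π)) = Complex.exp ((((n : ℝ) * u : ℝ) : ℂ) * Complex.I) := by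
        intro u
        rw [fourier_coe_apply]
        congr 1
        push_cast
        have : (π : ℂ) ≠ 0 := by exact_mod_cast Real.pi_ne_zero
        field_simp
      constructor
      · have h1 : (fun u : ℝ => (fourier n (u : AddCircle (2 * π))).re) = fun u => Real.cos (n * u) := by
          funext u
          rw [e, Complex.exp_ofReal_mul_I_re]
        rw [h1]; exact cos_mem n
      · have h1 : (fun u : ℝ => (fourier n (u : AddCircle (2 * π))).im) = fun u => Real.sin (n * u) := by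
          funext u
          rw [e, Complex.exp_ofReal_mul_I_im]
        rw [h1]; exact sin_mem n
    | zero => exact ⟨const_mem 0, const_mem 0⟩
    | add x y _ _ hx hy => exact ⟨TPs.add_mem hx.1 hy.1, TPs.add_mem hx.2 hy.2⟩
    | smul c x _ hx =>
      constructor
      · have h1 := TPs.sub_mem (TPs.smul_mem c.re hx.1) (TPs.smul_mem c.im hx.2)
        convert h1 using 1
        funext u
        exact Complex.mul_re _ _
      · have h1 := TPs.add_mem (TPs.smul_mem c.re hx.2) (TPs.smul_mem c.im hx.1)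
        convert h1 using 1
        funext u
        exact Complex.mul_im _ _
  refine ⟨_, key.1, fun u => ?_⟩
  have h1 : ‖H (u : AddCircle (2 * π)) - g (u : AddCircle (2 * π))‖ ≤ ‖H - g‖ := (H - g).norm_coe_le_norm _
  have h2 : H (u : AddCircle (2 * π)) = ((h u : ℝ) : ℂ) := rfl
  rw [dist_eq_norm] at hd
  have h3 := Complex.abs_re_le_norm (H (u : AddCircle (2 * π)) - g (u : AddCircle (2 * π)))
  rw [h2, Complex.sub_re, Complex.ofReal_re] at h3
  rw [h2] at h1
  linarith

/-- approximation together with the derivative -/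
lemma approx1 {g : ℝ → ℝ} (hg : PS g) {ε : ℝ} (hε : 0 < ε) :
    ∃ T ∈ TPs, ∀ u, |g u - T u| ≤ ε ∧ |deriv g u - deriv T u| ≤ ε := by
  have hη : 0 < ε / 13 := by positivity
  obtain ⟨T1, hT1, h1⟩ := approx0 hg.deriv.1.continuous hg.deriv.2 hη
  obtain ⟨c, S, hS, hd⟩ := TPs_prim hT1
  have hSp := TPs_ps hS
  set φ : ℝ → ℝ := fun u => g u - S u with hφ
  have hφd : ∀ u, HasDerivAt φ (deriv g u - (T1 u - c)) u := fun u => (hg.diff u).hasDerivAt.sub (hd u)
  have hpi : (0 : ℝ) < 2 * π := by positivity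
  have hφp : ∀ u, φ (u + 2 * π) = φ u := fun u => by simp only [hφ]; rw [hg.2, hSp.2]
  have hφc : Continuous φ := continuous_iff_continuousAt.2 fun u => (hφd u).continuousAt
  -- the mean
  have hcb : |c| ≤ ε / 13 := by
    obtain ⟨ξ, _, hξ⟩ := exists_hasDerivAt_eq_zero hpi hφc.continuousOn (by have := hφp 0; rw [zero_add] at this; exact this.symm)
      (fun x _ => hφd x)
    have h2 := h1 ξ
    have h3 : c = -(deriv g ξ - T1 ξ) := by linarith
    rw [h3, abs_neg]
    exact h2
  have hd2 : ∀ u, |deriv g u - (T1 u - c)| ≤ 2 * (ε / 13) := by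
    intro u
    have : deriv g u - (T1 u - c) = (deriv g u - T1 u) + c := by ring
    rw [this]
    exact (abs_add_le _ _).trans (by linarith [h1 u])
  refine ⟨_, TPs.add_mem hS (const_mem (φ 0)), fun u => ⟨?_, ?_⟩⟩
  · show |g u - (S u + φ 0)| ≤ ε
    have e : g u - (S u + φ 0) = φ u - φ 0 := by simp only [hφ]; ring
    rw [e]
    have hper : Function.Periodic φ (2 * π) := hφp
    obtain ⟨y, hy, hyu⟩ := hper.exists_mem_Ico₀ hpi u
    rw [hyu]
    have h4 := Convex.norm_image_sub_le_of_norm_hasDerivWithin_le (f := φ) (s := Set.univ) (x := 0) (y := y)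
      (f' := fun u => deriv g u - (T1 u - c)) (C := 2 * (ε / 13))
      (fun x _ => (hφd x).hasDerivWithinAt) (fun x _ => hd2 x) convex_univ (Set.mem_univ _) (Set.mem_univ _)
    rw [Real.norm_eq_abs, Real.norm_eq_abs, sub_zero, abs_of_nonneg hy.1] at h4
    have hpi4 := Real.pi_lt_d2
    have h5 : y ≤ 6.5 := by linarith [hy.2]
    calc |φ y - φ 0| ≤ 2 * (ε / 13) * y := h4
      _ ≤ 2 * (ε / 13) * 6.5 := by gcongr
      _ = ε := by ring
  · have h5 : deriv (S + fun _ => φ 0) u = T1 u - c := by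
      have := (hd u).add_const (φ 0)
      exact this.deriv
    rw [h5]
    exact (hd2 u).trans (by linarith)

end Pool.Agent.H269.GV
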