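import Pool.Agent.H269.GV.Zone

set_option autoImplicit false

/-!
# The winding number on small circles
-/

open Real Filter Topology
open scoped ContDiff

namespace Pool.Agent.H269.GV

open Pool.Agent.H690.LN

namespace Dat

variable {D : Dat} {n : ℕ} {δ κ : ℝ}

lemma cont_Qf (D : Dat) : Continuous D.Qf :=
  (Complex.continuous_ofReal.comp (D.cont_Fxx.sub D.cont_Fyy)).add
    ((continuous_const.mul (Complex.continuous_ofReal.comp D.cont_Fxy)).mul continuous_const)

lemma Qf_rf (D : Dat) (w : ℂ) : D.Qf (rf w) = (starRingEnd ℂ) (D.Qf w) := by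
  unfold Qf
  rw [D.rf_Fxx, D.rf_Fyy, D.rf_Fxy]
  simp only [map_add, map_mul, Complex.conj_ofReal, Complex.conj_I]
  have : (starRingEnd ℂ) 2 = 2 := Complex.conj_ofNat 2
  rw [this]
  push_cast
  ring

lemma rf_ci (r t : ℝ) : ci r (π - t) = rf (ci r t) := by
  unfold ci rf
  rw [Real.cos_pi_sub, Real.sin_pi_sub]
  simp

lemma Qf_axis (D : Dat) (y : ℝ) : D.Qf ⟨0, y⟩ = ((D.RRs ⟨0, y⟩ : ℝ) : ℂ) := by
  obtain ⟨h1, h2, _⟩ := D.axis y
  unfold Qf
  rw [h1, h2]
  simp

theorem main_of_des (h : Des D n δ κ) : ∃ ε : ℝ, 0 < ε ∧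
    (∀ z ∈ Metric.ball (0 : ℂ) ε, z ≠ 0 → D.Qf z ≠ 0) ∧
    ∀ r, 0 < r → r < ε →
      (∃ θ : ℝ → ℝ, Continuous θ ∧ ∀ t, D.Qf (ci r t)
        = ((‖D.Qf (ci r t)‖ : ℝ) : ℂ) * Complex.exp ((θ t : ℂ) * Complex.I)) ∧
      ∀ θ : ℝ → ℝ, ContinuousOn θ (Set.Icc 0 (2 * π)) → (∀ t ∈ Set.Icc 0 (2 * π), D.Qf (ci r t)
        = ((‖D.Qf (ci r t)‖ : ℝ) : ℂ) * Complex.exp ((θ t : ℂ) * Complex.I)) → θ (2 * π) - θ 0 = 2 * π * n := by
  obtain ⟨ε, h0, h1, hsg⟩ := signs h
  have hne : ∀ w : ℂ, w ≠ 0 → 0 ≤ w.re → w.re < ε → |w.im| ≤ 1 → D.Qf w ≠ 0 := by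
    intro w hw hw0 hwε hw1 h'
    obtain ⟨k, hk, hZ⟩ := Zn_cover h hw0
    have h2 := hsg w hw hw0 hwε hw1 k hk hZ
    rw [h', mul_zero, zero_mul] at h2
    exact absurd h2 (lt_irrefl _)
  have hball : ∀ z : ℂ, ‖z‖ < ε → z ≠ 0 → D.Qf z ≠ 0 := by
    intro w hwε hw
    have him : |w.im| ≤ 1 := (Complex.abs_im_le_norm w).trans (by linarith)
    have h2 := abs_lt.1 (lt_of_le_of_lt (Complex.abs_re_le_norm w) hwε)
    rcases le_total 0 w.re with h | h
    · exact hne w hw h h2.2 him
    · have h3 : rf w ≠ 0 := by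
        intro h4
        apply hw
        have h5 := congrArg Complex.re h4
        have h6 := congrArg Complex.im h4
        simp [rf] at h5 h6
        exact Complex.ext h5 h6
      have h4 := hne (rf w) h3 (by simp [rf]; exact h) (by simp [rf]; linarith [h2.1]) him
      rw [Qf_rf] at h4
      intro h5
      apply h4
      rw [h5, map_zero]
  refine ⟨ε, h0, fun z hz hz0 => hball z (by simpa using hz) hz0, ?_⟩
  intro r hr0 hrε
  have hpi := Real.pi_pos
  have hne' : ∀ t, D.Qf (ci r t) ≠ 0 := by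
    intro t
    apply hball _ _ (ci_ne hr0 t)
    rw [← ci_eq, norm_mul, Complex.norm_exp_ofReal_mul_I, mul_one, Complex.norm_real, Real.norm_of_nonneg hr0.le]
    exact hrε
  have hqc : Continuous (fun t => D.Qf (ci r t)) := (cont_Qf D).comp (ci_cont r)
  obtain ⟨θ1, hc1, hl1⟩ := exists_lift hqc hne'
  -- the explicit lift of the sign-changed map
  set X := Set.Icc (-(π / 2)) (π / 2) with hX
  have hcos : ∀ t : X, 0 ≤ (ci r t).re ∧ (ci r t).re < ε ∧ |(ci r t).im| ≤ 1 := by
    intro t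
    have h2 : 0 ≤ Real.cos t := Real.cos_nonneg_of_mem_Icc t.2
    have h3 := Real.cos_le_one t
    refine ⟨mul_nonneg hr0.le h2, ?_, ?_⟩
    · show r * Real.cos t < ε
      nlinarith
    · show |r * Real.sin t| ≤ 1
      rw [abs_mul, abs_of_pos hr0]
      have := Real.abs_sin_le_one t
      nlinarith [abs_nonneg (Real.sin t)]
  have hcc : Continuous (fun t : X => ci r t) := (ci_cont r).comp continuous_subtype_val
  set Q' : ℂ → ℂ := fun w => (-1 : ℂ) ^ (n + 1) * D.Qf w with hQ'
  have hQc : Continuous (fun t : X => Q' (ci r t)) := continuous_const.mul ((cont_Qf D).comp hcc)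
  obtain ⟨Θ, hΘ, hl, hv⟩ := glue_zones (N := 2 * n + 1) (fun t : X => Q' (ci r t)) hQc
    (fun k => {t : X | D.Zn n δ κ k (ci r t)})
    (by
      intro k
      have hre : Continuous (fun t : X => (ci r t).re) := Complex.continuous_re.comp hcc
      have him : Continuous (fun t : X => (ci r t).im) := Complex.continuous_im.comp hcc
      have hsc : Continuous (fun t : X => D.sc (ci r t).re) := D.cont_sc.comp hre
      have hww : Continuous (fun t : X => D.wws (ci r t)) := D.cont_wws.comp hcc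
      have hRR : Continuous (fun t : X => D.RRs (ci r t)) := D.cont_RRs.comp hcc
      have e1 : IsClosed {t : X | ((k : ℕ) ≠ 0 → ((((k : ℕ) + 1) / 2 : ℕ) - δ) * D.sc (ci r t).re ≤ (ci r t).im)} := by
        by_cases hk : (k : ℕ) = 0
        · simp [hk]
        · simp only [ne_eq, hk, not_false_eq_true, forall_const]
          exact isClosed_le (continuous_const.mul hsc) him
      have e2 : IsClosed {t : X | ((k : ℕ) ≠ 2 * n → (ci r t).im ≤
          ((((k : ℕ) + 1) / 2 : ℕ) + (if Even (k : ℕ) then 1 else 0) + δ) * D.sc (ci r t).re)} := by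
        by_cases hk : (k : ℕ) = 2 * n
        · simp [hk]
        · simp only [ne_eq, hk, not_false_eq_true, forall_const]
          exact isClosed_le him (continuous_const.mul hsc)
      have e3 : IsClosed {t : X | (Even (k : ℕ) → κ * D.wws (ci r t) ≤ (-1) ^ (n + (k : ℕ) / 2 + 1) * D.RRs (ci r t))} := by
        by_cases hk : Even (k : ℕ)
        · simp only [hk, forall_const]
          exact isClosed_le (continuous_const.mul hww) (continuous_const.mul hRR)
        · simp [hk]
      have e4 : IsClosed {t : X | (¬ Even (k : ℕ) → |D.RRs (ci r t)| ≤ κ * D.wws (ci r t))} := by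
        by_cases hk : Even (k : ℕ)
        · simp [hk]
        · simp only [hk, not_false_eq_true, forall_const]
          exact isClosed_le hRR.abs (continuous_const.mul hww)
      exact e1.inter (e2.inter (e3.inter e4)))
    (by
      intro t
      obtain ⟨k, hk, hZ⟩ := Zn_cover h (hcos t).1
      exact ⟨⟨k, by omega⟩, hZ⟩)
    (by
      intro k t ht
      exact hsg (ci r t) (ci_ne hr0 t) (hcos t).1 (hcos t).2.1 (hcos t).2.2 k (by omega) ht)
    (by
      intro j k hjk t hj hk
      exact Zn_adj h (hcos t).1 (ci_ne hr0 t) (by exact_mod_cast hjk) (by omega) hj hk)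
  have hm1 : (starRingEnd ℂ) ((-1 : ℂ) ^ (n + 1)) = (-1) ^ (n + 1) := by
    rw [map_pow, map_neg, map_one]
  obtain ⟨θ0, hc0, hl0, hd0⟩ := full_circle (Q := Q') n
    (fun t => by rw [rf_ci]; simp only [hQ']; rw [Qf_rf, map_mul, hm1]) hΘ hl
    (by
      intro t ht
      have hc : ci r t = ⟨0, -r⟩ := by
        unfold ci
        rw [ht, Real.cos_neg, Real.sin_neg, Real.cos_pi_div_two, Real.sin_pi_div_two]
        simp
      obtain ⟨k, hk, hZ⟩ := Zn_cover h (hcos t).1
      have hk0 : k = 0 := by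
        by_contra hk0
        have h2 := hZ.1 hk0
        rw [hc] at h2
        simp only [D.sc_zero, mul_zero] at h2
        linarith
      have hlt : k < 2 * n + 1 := by omega
      have h2 := hv ⟨k, hlt⟩ t hZ
      simp only at h2
      subst hk0
      have h3 := hsg (ci r t) (ci_ne hr0 t) (hcos t).1 (hcos t).2.1 (hcos t).2.2 0 (by omega) hZ
      rw [h2]
      simp only [Nat.cast_zero, zero_mul, pow_zero, mul_one, zero_add] at h3 ⊢
      rw [Complex.arg_eq_zero_iff]
      refine ⟨h3.le, ?_⟩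
      simp only [hQ']
      rw [hc, Qf_axis]
      have e1 : (-1 : ℂ) ^ (n + 1) * ((D.RRs ⟨0, -r⟩ : ℝ) : ℂ) = (((-1) ^ (n + 1) * D.RRs ⟨0, -r⟩ : ℝ) : ℂ) := by
        push_cast; ring
      rw [e1]; exact Complex.ofReal_im _)
    (by
      intro t ht
      have hc : ci r t = ⟨0, r⟩ := by
        unfold ci
        rw [ht, Real.cos_pi_div_two, Real.sin_pi_div_two]
        simp
      obtain ⟨k, hk, hZ⟩ := Zn_cover h (hcos t).1
      have hkn : k = 2 * n := by
        by_contra hkn
        have h2 := hZ.2.1 hkn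
        rw [hc] at h2
        simp only [D.sc_zero, mul_zero] at h2
        linarith
      subst hkn
      have hlt : 2 * n < 2 * n + 1 := by omega
      have h2 := hv ⟨2 * n, hlt⟩ t hZ
      have h3 := hsg (ci r t) (ci_ne hr0 t) (hcos t).1 (hcos t).2.1 (hcos t).2.2 (2 * n) (by omega) hZ
      rw [h2]
      simp only [hQ'] at h3 ⊢
      have e2 : (-Complex.I) ^ (2 * n) = (-1) ^ n := by rw [pow_mul]; simp
      rw [e2, hc, Qf_axis] at h3 ⊢
      have e1 : (-1 : ℂ) ^ (n + 1) * ((D.RRs ⟨0, r⟩ : ℝ) : ℂ) * (-1) ^ n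
          = (((-1) ^ (n + 1) * D.RRs ⟨0, r⟩ * (-1) ^ n : ℝ) : ℂ) := by
        push_cast; ring
      rw [e1] at h3 ⊢
      rw [Complex.arg_eq_zero_iff.2 ⟨h3.le, Complex.ofReal_im _⟩]
      push_cast
      ring)
  refine ⟨⟨θ1, hc1, hl1⟩, ?_⟩
  intro θ hθ hθl
  -- the shifted explicit lift
  have h5 := lift_unique (F := fun t => D.Qf (ci r t)) (T := 2 * π) (by positivity) (fun t _ => hne' t)
    (θ := θ) (θ' := fun t => θ0 t + (n + 1) * π) hθ (hc0.add continuous_const).continuousOn hθl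
    (by
      intro t ht
      have h6 := hl0 t ht
      simp only [hQ'] at h6
      have h7 : ‖(-1 : ℂ) ^ (n + 1) * D.Qf (ci r t)‖ = ‖D.Qf (ci r t)‖ := by
        rw [norm_mul, norm_pow, norm_neg, norm_one, one_pow, one_mul]
      rw [h7] at h6
      have h8 : Complex.exp (((θ0 t + (n + 1) * π : ℝ) : ℂ) * Complex.I)
          = Complex.exp ((θ0 t : ℂ) * Complex.I) * (-1) ^ (n + 1) := by
        push_cast
        rw [add_mul, Complex.exp_add]
        congr 1
        rw [show ((n : ℂ) + 1) * π * Complex.I = ((n + 1 : ℕ) : ℂ) * (π * Complex.I) by push_cast; ring,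
          Complex.exp_nat_mul, Complex.exp_pi_mul_I]
      rw [h8, ← mul_assoc, ← h6]
      have h9 : (-1 : ℂ) ^ (n + 1) * (-1) ^ (n + 1) = 1 := by rw [← mul_pow]; simp
      linear_combination (-(D.Qf (ci r t))) * h9)
  rw [h5]
  linarith

end Dat

end Pool.Agent.H269.GV
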