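import Pool.Agent.H690.LN.Hess

set_option autoImplicit false

/-!
# The flat functions with phase `-1/x^(2r)`

Adapted from `Pool.Agent.H690.LN.Per` (there `r = 1`). `W r a j k P` is the function
`s(x)^j * x^{-k} * P(-1/x^(2r))` (zero at `x = 0`) with `s(x) = exp(-a/x^(2r))`.
-/

open Real Filter Topology
open scoped ContDiff

namespace Pool.Agent.H269.GV

open Pool.Agent.H690.LN

/-- the basic flat functions -/
noncomputable def W (r : ℕ) (a : ℝ) (j k : ℕ) (P : ℝ → ℝ) (x : ℝ) : ℝ :=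
  if x = 0 then 0 else Real.exp (-(j * a * (x⁻¹) ^ (2 * r))) * (x⁻¹) ^ k * P (-(x⁻¹) ^ (2 * r))

lemma W_zero (r : ℕ) (a : ℝ) (j k : ℕ) (P : ℝ → ℝ) : W r a j k P 0 = 0 := by simp [W]

lemma W_of_ne {x : ℝ} (hx : x ≠ 0) (r : ℕ) (a : ℝ) (j k : ℕ) (P : ℝ → ℝ) :
    W r a j k P x = Real.exp (-(j * a * (x⁻¹) ^ (2 * r))) * (x⁻¹) ^ k * P (-(x⁻¹) ^ (2 * r)) := by
  simp [W, hx]

lemma W_neg (r : ℕ) (a : ℝ) (j k : ℕ) (P : ℝ → ℝ) (x : ℝ) :
    W r a j k P (-x) = (-1) ^ k * W r a j k P x := by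
  by_cases hx : x = 0
  · simp [hx, W_zero]
  · rw [W_of_ne hx, W_of_ne (neg_ne_zero.2 hx)]
    rw [inv_neg, (even_two_mul r).neg_pow, neg_pow]
    ring

/-- `|t|^k exp(-c t^(2r)) → 0` -/
lemma tendsto_auxr {r : ℕ} (hr : 1 ≤ r) {c : ℝ} (hc : 0 < c) (k : ℕ) :
    Tendsto (fun t : ℝ => Real.exp (-(c * t ^ (2 * r))) * |t| ^ k) (Bornology.cobounded ℝ) (𝓝 0) := by
  have h0 : Tendsto (fun t : ℝ => ‖t‖) (Bornology.cobounded ℝ) atTop := tendsto_norm_cobounded_atTop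
  refine squeeze_zero' (Eventually.of_forall fun t => by positivity) ?_ (tendsto_aux hc k)
  filter_upwards [h0.eventually_ge_atTop 1] with t ht
  rw [Real.norm_eq_abs] at ht
  have h1 : t ^ 2 ≤ t ^ (2 * r) := by
    rw [pow_mul]
    apply le_self_pow₀ _ (by omega)
    rw [← sq_abs]
    nlinarith
  have h2 : Real.exp (-(c * t ^ (2 * r))) ≤ Real.exp (-(c * t ^ 2)) := by
    apply Real.exp_le_exp.2
    nlinarith
  exact mul_le_mul_of_nonneg_right h2 (by positivity)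

lemma W_tendsto {r : ℕ} (hr : 1 ≤ r) {a : ℝ} (ha : 0 < a) {j : ℕ} (hj : 1 ≤ j) (k : ℕ) {P : ℝ → ℝ}
    (hP : PS P) : Tendsto (W r a j k P) (𝓝[≠] 0) (𝓝 0) := by
  obtain ⟨C, hC0, hC⟩ := hP.bdd
  have hj' : (0 : ℝ) < j * a := by
    have : (1 : ℝ) ≤ j := by exact_mod_cast hj
    positivity
  have h1 := (tendsto_auxr hr hj' k).comp (tendsto_inv₀_nhdsNE_zero (α := ℝ))
  have h2 : Tendsto (fun x : ℝ => C * (Real.exp (-((j * a) * (x⁻¹) ^ (2 * r))) * |x⁻¹| ^ k))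
      (𝓝[≠] 0) (𝓝 0) := by
    have := h1.const_mul C
    simpa using this
  refine squeeze_zero_norm' ?_ h2
  filter_upwards [self_mem_nhdsWithin] with x hx
  have hx' : x ≠ 0 := hx
  rw [W_of_ne hx', norm_mul, norm_mul, Real.norm_eq_abs, Real.norm_eq_abs, Real.norm_eq_abs, Real.abs_exp, abs_pow]
  have h4 := hC (-(x⁻¹) ^ (2 * r))
  calc Real.exp (-(j * a * (x⁻¹) ^ (2 * r))) * |x⁻¹| ^ k * |P (-(x⁻¹) ^ (2 * r))|
      ≤ Real.exp (-(j * a * (x⁻¹) ^ (2 * r))) * |x⁻¹| ^ k * C := by gcongr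
    _ = _ := by ring

lemma W_hasDerivAt {r : ℕ} (hr : 1 ≤ r) {a : ℝ} (ha : 0 < a) {j : ℕ} (hj : 1 ≤ j) (k : ℕ) {P : ℝ → ℝ}
    (hP : PS P) (x : ℝ) :
    HasDerivAt (W r a j k P) (W r a j (k + (2 * r + 1)) (fun u => (r : ℝ) * (2 * ((j : ℝ) * a * P u + deriv P u))) x
      + W r a j (k + 1) (fun u => (-(k : ℝ)) * P u) x) x := by
  by_cases hx : x = 0
  · subst hx
    rw [W_zero, W_zero, add_zero, hasDerivAt_iff_tendsto_slope]
    refine (W_tendsto hr ha hj (k + 1) hP).congr' ?_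
    filter_upwards [self_mem_nhdsWithin] with x hx
    have hx' : x ≠ 0 := hx
    rw [slope_def_field, W_zero, W_of_ne hx', W_of_ne hx']
    rw [sub_zero, sub_zero, div_eq_mul_inv, pow_succ]
    ring
  · obtain ⟨q, rfl⟩ : ∃ q, r = q + 1 := ⟨r - 1, by omega⟩
    have ht : HasDerivAt (fun x : ℝ => x⁻¹) (-(x ^ 2)⁻¹) x := hasDerivAt_inv hx
    have htp : HasDerivAt (fun x : ℝ => (x⁻¹) ^ (2 * (q + 1)))
        ((2 * (q + 1) : ℝ) * x⁻¹ ^ (2 * q + 1) * (-(x ^ 2)⁻¹)) x := by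
      have h := ht.pow (2 * (q + 1))
      have e : 2 * (q + 1) - 1 = 2 * q + 1 := by omega
      rw [e] at h
      refine h.congr_deriv ?_
      push_cast
      ring
    have hu : HasDerivAt (fun x : ℝ => -(x⁻¹) ^ (2 * (q + 1)))
        (-((2 * (q + 1) : ℝ) * x⁻¹ ^ (2 * q + 1) * (-(x ^ 2)⁻¹))) x := htp.neg
    have h1 : HasDerivAt (fun x : ℝ => -(j * a * (x⁻¹) ^ (2 * (q + 1))))
        (-(j * a * ((2 * (q + 1) : ℝ) * x⁻¹ ^ (2 * q + 1) * (-(x ^ 2)⁻¹)))) x :=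
      (htp.const_mul (j * a)).neg
    have h2 : HasDerivAt (fun x : ℝ => P (-(x⁻¹) ^ (2 * (q + 1)))) (deriv P (-(x⁻¹) ^ (2 * (q + 1)))
        * (-((2 * (q + 1) : ℝ) * x⁻¹ ^ (2 * q + 1) * (-(x ^ 2)⁻¹)))) x :=
      (hP.diff _).hasDerivAt.comp x hu
    have h3 := (h1.exp.mul (ht.pow k)).mul h2
    have h4 : W (q + 1) a j k P =ᶠ[𝓝 x]
        (fun x => Real.exp (-(j * a * (x⁻¹) ^ (2 * (q + 1)))) * (x⁻¹) ^ k * P (-(x⁻¹) ^ (2 * (q + 1)))) := by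
      filter_upwards [isOpen_ne.mem_nhds hx] with y hy
      exact W_of_ne hy _ _ _ _ _
    refine (HasDerivAt.congr_of_eventuallyEq ?_ h4)
    refine h3.congr_deriv ?_
    rw [W_of_ne hx, W_of_ne hx]
    have hx2 : (x ^ 2)⁻¹ = x⁻¹ ^ 2 := by rw [inv_pow]
    rw [hx2]
    simp only [Pi.mul_apply, Pi.pow_apply]
    generalize x⁻¹ = t
    rcases k with _ | k
    · push_cast
      simp only [pow_zero, zero_mul, mul_one, mul_zero, zero_add, neg_zero, add_zero]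
      ring
    · push_cast
      ring

/-- the scale -/
noncomputable def ss (r : ℕ) (a x : ℝ) : ℝ := Real.exp (-(a * (x⁻¹) ^ (2 * r)))

lemma ss_pos (r : ℕ) (a x : ℝ) : 0 < ss r a x := Real.exp_pos _

lemma ss_pow (r : ℕ) (a x : ℝ) (j : ℕ) : ss r a x ^ j = Real.exp (-(j * a * (x⁻¹) ^ (2 * r))) := by
  rw [ss, ← Real.exp_nat_mul]; congr 1; ring

lemma ss_le_one {r : ℕ} {a : ℝ} (ha : 0 < a) (x : ℝ) : ss r a x ≤ 1 := by
  rw [ss, Real.exp_le_one_iff]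
  have : 0 ≤ a * (x⁻¹) ^ (2 * r) := mul_nonneg ha.le ((even_two_mul r).pow_nonneg _)
  linarith

lemma W_eq {x : ℝ} (hx : x ≠ 0) (r : ℕ) (a : ℝ) (j k : ℕ) (P : ℝ → ℝ) :
    W r a j k P x = ss r a x ^ j * (x⁻¹) ^ k * P (-(x⁻¹) ^ (2 * r)) := by
  rw [W_of_ne hx, ss_pow]

inductive Cl (r : ℕ) (a : ℝ) (j : ℕ) : (ℝ → ℝ) → Prop
  | base (k : ℕ) (P : ℝ → ℝ) (hP : PS P) : Cl r a j (W r a j k P)
  | add (f g : ℝ → ℝ) (hf : Cl r a j f) (hg : Cl r a j g) : Cl r a j (fun x => f x + g x)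

lemma Cl.hasDeriv {r : ℕ} (hr : 1 ≤ r) {a : ℝ} (ha : 0 < a) {j : ℕ} (hj : 1 ≤ j) {f : ℝ → ℝ} (h : Cl r a j f) :
    ∃ f' : ℝ → ℝ, Cl r a j f' ∧ ∀ x, HasDerivAt f (f' x) x := by
  induction h with
  | base k P hP =>
    refine ⟨_, Cl.add _ _ (Cl.base (k + (2 * r + 1)) _ ?_) (Cl.base (k + 1) _ ?_), fun x => W_hasDerivAt hr ha hj k hP x⟩
    · exact (PS.const (r : ℝ)).mul ((PS.const 2).mul (((PS.const ((j : ℝ) * a)).mul hP).add hP.deriv))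
    · exact (PS.const (-(k : ℝ))).mul hP
  | add f g _ _ ihf ihg =>
    obtain ⟨f', h1, h2⟩ := ihf
    obtain ⟨g', h3, h4⟩ := ihg
    exact ⟨_, Cl.add _ _ h1 h3, fun x => (h2 x).add (h4 x)⟩

lemma Cl.contDiffNat {r : ℕ} (hr : 1 ≤ r) {a : ℝ} (ha : 0 < a) {j : ℕ} (hj : 1 ≤ j) (n : ℕ) :
    ∀ {f : ℝ → ℝ}, Cl r a j f → ContDiff ℝ n f := by
  induction n with
  | zero =>
    intro f h
    obtain ⟨f', _, h2⟩ := h.hasDeriv hr ha hj
    rw [Nat.cast_zero, contDiff_zero]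
    exact continuous_iff_continuousAt.2 fun x => (h2 x).continuousAt
  | succ n ih =>
    intro f h
    obtain ⟨f', h1, h2⟩ := h.hasDeriv hr ha hj
    have h3 : deriv f = f' := funext fun x => (h2 x).deriv
    push_cast
    rw [contDiff_succ_iff_deriv]
    refine ⟨fun x => (h2 x).differentiableAt, ?_, ?_⟩
    · intro h; exact absurd h (by simp)
    · rw [h3]; exact ih h1

lemma Cl.contDiff {r : ℕ} (hr : 1 ≤ r) {a : ℝ} (ha : 0 < a) {j : ℕ} (hj : 1 ≤ j) {f : ℝ → ℝ} (h : Cl r a j f) :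
    ContDiff ℝ ∞ f := by
  rw [contDiff_infty]
  intro n
  exact h.contDiffNat hr ha hj n

lemma Cl.cont {r : ℕ} (hr : 1 ≤ r) {a : ℝ} (ha : 0 < a) {j : ℕ} (hj : 1 ≤ j) {f : ℝ → ℝ} (h : Cl r a j f) :
    Continuous f :=
  (h.contDiff hr ha hj).continuous

lemma Cl.zero_val {r : ℕ} {a : ℝ} {j : ℕ} {f : ℝ → ℝ} (h : Cl r a j f) : f 0 = 0 := by
  induction h with
  | base k P hP => exact W_zero _ _ _ _ _
  | add f g _ _ ihf ihg => show f 0 + g 0 = 0; rw [ihf, ihg, add_zero]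

lemma Cl.deriv_zero {r : ℕ} (hr : 1 ≤ r) {a : ℝ} (ha : 0 < a) {j : ℕ} (hj : 1 ≤ j) {f : ℝ → ℝ} (h : Cl r a j f) :
    deriv f 0 = 0 := by
  obtain ⟨f', h1, h2⟩ := h.hasDeriv hr ha hj
  rw [(h2 0).deriv]
  exact h1.zero_val

lemma Cl.bound {r : ℕ} {a : ℝ} {j : ℕ} {f : ℝ → ℝ} (h : Cl r a j f) :
    ∃ C : ℝ, ∃ k : ℕ, 0 ≤ C ∧ ∀ x : ℝ, 0 < x → x ≤ 1 → |f x| ≤ C * (ss r a x ^ j * (x⁻¹) ^ k) := by
  induction h with
  | base k P hP =>
    obtain ⟨C, hC0, hC⟩ := hP.bdd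
    refine ⟨C, k, hC0, fun x h0 h1 => ?_⟩
    rw [W_eq h0.ne', abs_mul, abs_mul, abs_of_pos (pow_pos (ss_pos r a x) j), abs_of_pos (pow_pos (inv_pos.2 h0) k)]
    have h2 := hC (-(x⁻¹) ^ (2 * r))
    have h3 : 0 < ss r a x ^ j * (x⁻¹) ^ k := mul_pos (pow_pos (ss_pos r a x) j) (pow_pos (inv_pos.2 h0) k)
    nlinarith
  | add f g _ _ ihf ihg =>
    obtain ⟨C, k, hC0, hC⟩ := ihf
    obtain ⟨D, l, hD0, hD⟩ := ihg
    refine ⟨C + D, k + l, by positivity, fun x h0 h1 => ?_⟩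
    have h2 := hC x h0 h1
    have h3 := hD x h0 h1
    have h4 := inv_ge_one h0 h1
    have h5 : (x⁻¹) ^ k ≤ (x⁻¹) ^ (k + l) := pow_le_pow_right₀ h4 (by omega)
    have h6 : (x⁻¹) ^ l ≤ (x⁻¹) ^ (k + l) := pow_le_pow_right₀ h4 (by omega)
    have h7 : 0 < ss r a x ^ j := pow_pos (ss_pos r a x) j
    calc |f x + g x| ≤ |f x| + |g x| := abs_add_le _ _
      _ ≤ C * (ss r a x ^ j * (x⁻¹) ^ k) + D * (ss r a x ^ j * (x⁻¹) ^ l) := add_le_add h2 h3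
      _ ≤ C * (ss r a x ^ j * (x⁻¹) ^ (k + l)) + D * (ss r a x ^ j * (x⁻¹) ^ (k + l)) := by gcongr
      _ = _ := by ring

lemma Cl.fl {r : ℕ} (hr : 1 ≤ r) {a : ℝ} (ha : 0 < a) {j : ℕ} (hj : 1 ≤ j) {f : ℝ → ℝ} (h : Cl r a j f) : Fl f := by
  induction h with
  | base k P hP =>
    intro n
    have h1 : Continuous (W r a j (k + n) P) := (Cl.base (k + n) P hP).cont hr ha hj
    obtain ⟨C, hC⟩ := (isCompact_Icc (a := (-1 : ℝ)) (b := 1)).exists_bound_of_continuousOn h1.continuousOn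
    have hC0 : 0 ≤ C := (norm_nonneg _).trans (hC 0 (by constructor <;> norm_num))
    refine ⟨C, hC0, fun x hx => ?_⟩
    have h2 := hC x ⟨by linarith [(abs_le.1 hx).1], (abs_le.1 hx).2⟩
    by_cases hx0 : x = 0
    · subst hx0
      rw [W_zero]; simp; positivity
    · have h3 : W r a j k P x = x ^ n * W r a j (k + n) P x := by
        rw [W_eq hx0, W_eq hx0, pow_add]
        have : x ^ n * (x⁻¹) ^ n = 1 := by rw [← mul_pow, mul_inv_cancel₀ hx0, one_pow]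
        linear_combination (-(ss r a x ^ j * x⁻¹ ^ k * P (-x⁻¹ ^ (2 * r)))) * this
      rw [h3, abs_mul, abs_pow, mul_comm]
      rw [Real.norm_eq_abs] at h2
      exact mul_le_mul_of_nonneg_right h2 (by positivity)
  | add f g _ _ ihf ihg => exact ihf.add ihg

end Pool.Agent.H269.GV
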