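import Pool.Agent.H269.GV.Est

set_option autoImplicit false

/-!
# The zones of the right half plane
-/

open Real Filter Topology Finset
open scoped ContDiff

namespace Pool.Agent.H269.GV

open Pool.Agent.H690.LN

/-- requirements on the profiles -/
structure Des (D : Dat) (n : ℕ) (δ κ : ℝ) : Prop where
  hmn : D.m = n + 4
  hn : 1 ≤ n
  δ0 : 0 < δ
  δ1 : δ < 1 / 2
  κ0 : 0 < κ
  κ1 : κ ≤ (D.m : ℝ) * ((D.m - 1 : ℕ) : ℝ)
  gap : ∀ u Y : ℝ, ∀ i : ℕ, i ≤ n → (i ≠ 0 → (i : ℝ) + δ ≤ Y) → (i ≠ n → Y ≤ i + 1 - δ) →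
    κ * D.ww Y ≤ (-1) ^ (n + i + 1) * D.RRp u Y
  osc : ∀ u Y : ℝ, ∀ i : ℕ, 1 ≤ i → i ≤ n → |Y - i| ≤ δ → |D.RRp u Y| ≤ κ * D.ww Y →
    0 < (-1) ^ (n + i) * D.SSp u Y

namespace Dat

variable (D : Dat)

/-- the zones -/
def Zn (n : ℕ) (δ κ : ℝ) (k : ℕ) (w : ℂ) : Prop :=
  (k ≠ 0 → (((k + 1) / 2 : ℕ) - δ) * D.sc w.re ≤ w.im) ∧
  (k ≠ 2 * n → w.im ≤ (((k + 1) / 2 : ℕ) + (if Even k then 1 else 0) + δ) * D.sc w.re) ∧
  (Even k → κ * D.wws w ≤ (-1) ^ (n + k / 2 + 1) * D.RRs w) ∧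
  (¬ Even k → |D.RRs w| ≤ κ * D.wws w)

variable {D} {n : ℕ} {δ κ : ℝ}

/-- covering for positive abscissa, in the scaled variable -/
lemma cover_aux (h : Des D n δ κ) (u Y : ℝ) : ∃ k, k ≤ 2 * n ∧
    (k ≠ 0 → (((k + 1) / 2 : ℕ) : ℝ) - δ ≤ Y) ∧
    (k ≠ 2 * n → Y ≤ (((k + 1) / 2 : ℕ) : ℝ) + (if Even k then 1 else 0) + δ) ∧
    (Even k → κ * D.ww Y ≤ (-1) ^ (n + k / 2 + 1) * D.RRp u Y) ∧
    (¬ Even k → |D.RRp u Y| ≤ κ * D.ww Y) := by
  have hδ0 := h.δ0
  have hδ1 := h.δ1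
  have hn := h.hn
  -- an even zone from its index
  have even : ∀ i : ℕ, i ≤ n → (i ≠ 0 → (i : ℝ) - δ ≤ Y) → (i ≠ n → Y ≤ (i : ℝ) + 1 + δ) →
      κ * D.ww Y ≤ (-1) ^ (n + i + 1) * D.RRp u Y → ∃ k, k ≤ 2 * n ∧
    (k ≠ 0 → (((k + 1) / 2 : ℕ) : ℝ) - δ ≤ Y) ∧
    (k ≠ 2 * n → Y ≤ (((k + 1) / 2 : ℕ) : ℝ) + (if Even k then 1 else 0) + δ) ∧
    (Even k → κ * D.ww Y ≤ (-1) ^ (n + k / 2 + 1) * D.RRp u Y) ∧
    (¬ Even k → |D.RRp u Y| ≤ κ * D.ww Y) := by
    intro i hi h1 h2 h3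
    have e1 : (2 * i + 1) / 2 = i := by omega
    have e2 : 2 * i / 2 = i := by omega
    refine ⟨2 * i, by omega, fun hk => ?_, fun hk => ?_, fun _ => ?_, fun hk => ?_⟩
    · rw [e1]; exact h1 (by omega)
    · rw [e1, if_pos (even_two_mul i)]; exact h2 (by omega)
    · rw [e2]; exact h3
    · exact absurd (even_two_mul i) hk
  by_cases c0 : Y ≤ 1 - δ
  · exact even 0 (by omega) (fun h => absurd rfl h) (fun _ => by push_cast; linarith)
      (h.gap u Y 0 (by omega) (fun h => absurd rfl h) (fun _ => by push_cast; linarith))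
  by_cases cn : (n : ℝ) + δ ≤ Y
  · exact even n le_rfl (fun _ => by linarith) (fun h => absurd rfl h)
      (h.gap u Y n le_rfl (fun _ => cn) (fun h => absurd rfl h))
  rw [not_le] at c0 cn
  obtain ⟨i, hi1, hi2, hi3⟩ : ∃ i : ℕ, (i : ℝ) ≤ Y + δ ∧ Y + δ < i + 1 ∧ 1 ≤ i :=
    ⟨⌊Y + δ⌋₊, Nat.floor_le (by linarith), Nat.lt_floor_add_one _, by
      apply Nat.le_floor; push_cast; linarith⟩
  have hi4 : i ≤ n := by
    have : (i : ℝ) < n + 1 := by linarith
    exact_mod_cast Nat.lt_succ_iff.1 (by exact_mod_cast this)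
  by_cases cY : Y ≤ i + δ
  · -- near the integer i
    rcases lt_or_ge (κ * D.ww Y) |D.RRp u Y| with hc | hc
    · -- even zone
      rcases le_total 0 ((-1) ^ (n + i + 1) * D.RRp u Y) with hs | hs
      · refine even i hi4 (fun _ => by linarith) (fun _ => by linarith) ?_
        have : |D.RRp u Y| = (-1) ^ (n + i + 1) * D.RRp u Y := by
          rw [← abs_of_nonneg hs, abs_mul, abs_pow, abs_neg, abs_one, one_pow, one_mul]
        linarith
      · obtain ⟨i', rfl⟩ : ∃ i', i = i' + 1 := ⟨i - 1, by omega⟩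
        push_cast at *
        refine even i' (by omega) (fun _ => by linarith) (fun _ => by linarith) ?_
        have h1 : (-1 : ℝ) ^ (n + (i' + 1) + 1) = -(-1) ^ (n + i' + 1) := by
          rw [show n + (i' + 1) + 1 = (n + i' + 1) + 1 by ring, pow_succ]; ring
        rw [h1] at hs
        have h2 : 0 ≤ (-1) ^ (n + i' + 1) * D.RRp u Y := by linarith
        have : |D.RRp u Y| = (-1) ^ (n + i' + 1) * D.RRp u Y := by
          rw [← abs_of_nonneg h2, abs_mul, abs_pow, abs_neg, abs_one, one_pow, one_mul]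
        linarith
    · -- odd zone
      have e1 : (2 * i - 1 + 1) / 2 = i := by omega
      have e2 : ¬ Even (2 * i - 1) := by
        rw [Nat.not_even_iff_odd]
        exact ⟨i - 1, by omega⟩
      refine ⟨2 * i - 1, by omega, fun _ => ?_, fun _ => ?_, fun hk => ?_, fun _ => hc⟩
      · rw [e1]; linarith
      · rw [e1, if_neg e2]; linarith
      · exact absurd hk e2
  · rw [not_le] at cY
    have hin : i ≠ n := by
      rintro h'
      rw [h'] at cY
      linarith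
    exact even i hi4 (fun _ => by linarith) (fun _ => by linarith)
      (h.gap u Y i hi4 (fun _ => cY.le) (fun _ => by linarith))

lemma Zn_cover (h : Des D n δ κ) {w : ℂ} (h0 : 0 ≤ w.re) : ∃ k, k ≤ 2 * n ∧ D.Zn n δ κ k w := by
  obtain ⟨x, y⟩ := w
  change 0 ≤ x at h0
  rcases h0.eq_or_lt with hx | hx
  · subst hx
    have hm := h.hmn
    have hκ1 := h.κ1
    obtain ⟨_, _, hR⟩ := D.axis y
    have hw : D.wws ⟨0, y⟩ = |y| ^ (n + 2) := by
      unfold wws
      simp only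
      rw [D.sc_zero, zero_pow (by omega), zero_add, hm]
      rfl
    have hpow : D.m - 1 - 1 = n + 2 := by omega
    rw [hpow] at hR
    have hκy : κ * |y| ^ (n + 2) ≤ (D.m : ℝ) * ((D.m - 1 : ℕ) : ℝ) * |y| ^ (n + 2) := by gcongr
    rcases le_total y 0 with hy | hy
    · refine ⟨0, by omega, fun h => absurd rfl h, fun _ => ?_, fun _ => ?_, fun h => absurd (by norm_num) h⟩
      · simp only [D.sc_zero, mul_zero]; exact hy
      · rw [hw, hR]
        have h1 : (-1 : ℝ) ^ (n + 0 / 2 + 1) * -((D.m : ℝ) * (((D.m - 1 : ℕ) : ℝ) * y ^ (n + 2)))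
            = (D.m : ℝ) * ((D.m - 1 : ℕ) : ℝ) * |y| ^ (n + 2) := by
          rw [abs_of_nonpos hy, neg_pow y (n + 2)]
          norm_num
          ring
        rw [h1]
        exact hκy
    · refine ⟨2 * n, le_rfl, fun _ => ?_, fun h => absurd rfl h, fun _ => ?_, fun h => absurd (even_two_mul n) h⟩
      · simp only [D.sc_zero, mul_zero]; exact hy
      · rw [hw, hR]
        have h1 : (-1 : ℝ) ^ (n + 2 * n / 2 + 1) * -((D.m : ℝ) * (((D.m - 1 : ℕ) : ℝ) * y ^ (n + 2)))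
            = (D.m : ℝ) * ((D.m - 1 : ℕ) : ℝ) * |y| ^ (n + 2) := by
          rw [abs_of_nonneg hy, show n + 2 * n / 2 + 1 = 2 * n + 1 by omega, pow_succ, pow_mul]
          norm_num
          ring
        rw [h1]
        exact hκy
  · have hs := ss_pos D.r D.a x
    obtain ⟨Y, rfl⟩ : ∃ Y, y = ss D.r D.a x * Y := ⟨y / ss D.r D.a x, by field_simp⟩
    obtain ⟨k, hk, h1, h2, h3, h4⟩ := cover_aux h (uu D.r x) Y
    have hsp : 0 < ss D.r D.a x ^ (D.m - 2) := by positivity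
    refine ⟨k, hk, fun hk0 => ?_, fun hkn => ?_, fun he => ?_, fun he => ?_⟩
    · show _ * D.sc x ≤ ss D.r D.a x * Y
      rw [D.sc_eq hx, mul_comm]
      exact mul_le_mul_of_nonneg_left (h1 hk0) hs.le
    · show ss D.r D.a x * Y ≤ _ * D.sc x
      rw [D.sc_eq hx, mul_comm _ (ss D.r D.a x)]
      exact mul_le_mul_of_nonneg_left (h2 hkn) hs.le
    · rw [D.wws_eq hx, D.RRs_eq hx]
      have := mul_le_mul_of_nonneg_left (h3 he) hsp.le
      calc κ * (ss D.r D.a x ^ (D.m - 2) * D.ww Y) = ss D.r D.a x ^ (D.m - 2) * (κ * D.ww Y) := by ring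
        _ ≤ _ := this
        _ = _ := by ring
    · rw [D.wws_eq hx, D.RRs_eq hx, abs_mul, abs_of_pos hsp]
      have := mul_le_mul_of_nonneg_left (h4 he) hsp.le
      calc ss D.r D.a x ^ (D.m - 2) * |D.RRp (uu D.r x) Y| ≤ ss D.r D.a x ^ (D.m - 2) * (κ * D.ww Y) := this
        _ = _ := by ring

lemma Zn_adj (h : Des D n δ κ) {w : ℂ} (h0 : 0 ≤ w.re) (hw : w ≠ 0) {j k : ℕ} (hjk : j < k) (hk : k ≤ 2 * n)
    (hj : D.Zn n δ κ j w) (hk' : D.Zn n δ κ k w) : k = j + 1 := by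
  by_contra hne
  have hδ0 := h.δ0
  have hδ1 := h.δ1
  obtain ⟨-, hju, hje, hjo⟩ := hj
  obtain ⟨hkl, -, hke, hko⟩ := hk'
  have h1 := hju (by omega)
  have h2 := hkl (by omega)
  rcases h0.eq_or_lt with hx | hx
  · rw [← hx, D.sc_zero, mul_zero] at h1 h2
    apply hw
    apply Complex.ext
    · rw [← hx]; rfl
    · simpa using le_antisymm h1 h2
  · rw [D.sc_eq hx] at h1 h2
    have hs := ss_pos D.r D.a w.re
    have h3 : (((k + 1) / 2 : ℕ) : ℝ) - δ ≤ (((j + 1) / 2 : ℕ) : ℝ) + (if Even j then 1 else 0) + δ :=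
      le_of_mul_le_mul_right (h2.trans h1) hs
    by_cases he : Even j
    · rw [if_pos he] at h3
      obtain ⟨i, rfl⟩ := he
      have e1 : (i + i + 1) / 2 = i := by omega
      rw [e1] at h3
      have h4 : (((k + 1) / 2 : ℕ) : ℝ) < ((i + 2 : ℕ) : ℝ) := by push_cast; linarith
      have h5 : (k + 1) / 2 < i + 2 := by exact_mod_cast h4
      have h6 : k = i + i + 2 := by omega
      subst h6
      have e2 := hje ⟨i, rfl⟩
      have e3 := hke ⟨i + 1, by ring⟩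
      have e4 : (i + i) / 2 = i := by omega
      have e5 : (i + i + 2) / 2 = i + 1 := by omega
      rw [e4] at e2
      rw [e5, show n + (i + 1) + 1 = (n + i + 1) + 1 by ring, pow_succ] at e3
      have e6 : 0 < D.wws w := by
        unfold wws
        have h7 : 0 < D.sc w.re := by rw [D.sc_eq hx]; exact hs
        positivity
      have e7 := mul_pos h.κ0 e6
      linarith
    · rw [if_neg he] at h3
      have h4 : (((k + 1) / 2 : ℕ) : ℝ) < (((j + 1) / 2 + 1 : ℕ) : ℝ) := by push_cast; linarith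
      have h5 : (k + 1) / 2 < (j + 1) / 2 + 1 := by exact_mod_cast h4
      rw [Nat.not_even_iff_odd] at he
      obtain ⟨i, rfl⟩ := he
      omega

lemma sign_re {R S : ℝ} {n k : ℕ} (he : Even k → 0 < (-1) ^ (n + k / 2 + 1) * R)
    (ho : ¬ Even k → 0 < (-1) ^ (n + (k + 1) / 2) * S) :
    0 < (((-1 : ℂ) ^ (n + 1) * ((R : ℂ) + 2 * (S : ℂ) * Complex.I)) * (-Complex.I) ^ k).re := by
  by_cases h : Even k
  · have h1 := he h
    obtain ⟨i, rfl⟩ := h
    have e1 : (i + i) / 2 = i := by omega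
    rw [e1] at h1
    have e2 : (-Complex.I) ^ (i + i) = (-1) ^ i := by
      rw [← two_mul, pow_mul]; simp
    have e3 : ((-1 : ℂ) ^ (n + 1) * ((R : ℂ) + 2 * (S : ℂ) * Complex.I)) * (-1) ^ i
        = (((-1) ^ (n + i + 1) * R : ℝ) : ℂ) + (((-1) ^ (n + i + 1) * (2 * S) : ℝ) : ℂ) * Complex.I := by
      push_cast
      ring
    rw [e2, e3]
    simp only [Complex.add_re, Complex.ofReal_re, Complex.mul_re, Complex.I_re, mul_zero, Complex.ofReal_im,
      Complex.I_im, mul_one, sub_self, add_zero]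
    linarith
  · have h1 := ho h
    rw [Nat.not_even_iff_odd] at h
    obtain ⟨i, rfl⟩ := h
    have e1 : (2 * i + 1 + 1) / 2 = i + 1 := by omega
    rw [e1] at h1
    have e2 : (-Complex.I) ^ (2 * i + 1) = (-1) ^ i * (-Complex.I) := by
      rw [pow_succ, pow_mul]; simp
    have e3 : ((-1 : ℂ) ^ (n + 1) * ((R : ℂ) + 2 * (S : ℂ) * Complex.I)) * ((-1) ^ i * (-Complex.I))
        = (((-1) ^ (n + (i + 1)) * (2 * S) : ℝ) : ℂ) + ((-((-1) ^ (n + (i + 1)) * R) : ℝ) : ℂ) * Complex.I := by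
      push_cast
      have hI : Complex.I ^ 2 = -1 := Complex.I_sq
      linear_combination (-(2 * (S : ℂ) * (-1) ^ (n + 1) * (-1) ^ i)) * hI
    rw [e2, e3]
    simp only [Complex.add_re, Complex.ofReal_re, Complex.mul_re, Complex.I_re, mul_zero, Complex.ofReal_im,
      Complex.I_im, mul_one, sub_self, add_zero]
    linarith

/-- the quantity `f_xx - f_yy + 2 i f_xy` -/
noncomputable def Qf (D : Dat) (w : ℂ) : ℂ := ((D.Fxx w - D.Fyy w : ℝ) : ℂ) + 2 * (D.Fxy w : ℂ) * Complex.I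

theorem signs (h : Des D n δ κ) : ∃ ε : ℝ, 0 < ε ∧ ε < 1 ∧
    ∀ w : ℂ, w ≠ 0 → 0 ≤ w.re → w.re < ε → |w.im| ≤ 1 → ∀ k, k ≤ 2 * n → D.Zn n δ κ k w →
      0 < (((-1 : ℂ) ^ (n + 1) * D.Qf w) * (-Complex.I) ^ k).re := by
  obtain ⟨C, K, hC, hE⟩ := D.E_bound
  have hκ := h.κ0
  have hη : (0 : ℝ) < κ / (2 * (C + 1)) := by positivity
  obtain ⟨ε, hε0, hε1, hsm⟩ := D.exists_small K hη
  refine ⟨ε, hε0, hε1, ?_⟩
  rintro ⟨x, y⟩ hw hx0 hxε hy1 k hk hZ
  change 0 ≤ x at hx0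
  change x < ε at hxε
  change |y| ≤ 1 at hy1
  unfold Qf
  apply sign_re
  · -- even zones
    intro he
    obtain ⟨-, -, hZe, -⟩ := hZ
    have h1 := hZe he
    rcases hx0.eq_or_lt with hx | hx
    · subst hx
      obtain ⟨ha, hb, hc⟩ := D.axis y
      rw [ha]
      have hy : y ≠ 0 := by
        intro hy; apply hw; rw [hy]; rfl
      have h2 : 0 < D.wws ⟨0, y⟩ := by
        unfold wws
        simp only
        rw [D.sc_zero, zero_pow (by have := D.hm; omega), zero_add]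
        have : 0 < |y| := abs_pos.2 hy
        positivity
      exact lt_of_lt_of_le (mul_pos hκ h2) h1
    · have hs := ss_pos D.r D.a x
      obtain ⟨Y, rfl⟩ : ∃ Y, y = ss D.r D.a x * Y := ⟨y / ss D.r D.a x, by field_simp⟩
      rw [D.main_eq hx]
      rw [D.wws_eq hx, D.RRs_eq hx] at h1
      have h2 := hE x hx (by linarith) Y hy1
      have h3 := hsm x hx hxε
      set M := ss D.r D.a x ^ (D.m - 2) * D.ww Y with hM
      have hMp : 0 < M := mul_pos (pow_pos hs _) (D.ww_pos Y)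
      have h4 : C * (ss D.r D.a x * (x⁻¹) ^ K) * M ≤ κ / 2 * M := by
        apply mul_le_mul_of_nonneg_right _ hMp.le
        calc C * (ss D.r D.a x * (x⁻¹) ^ K) ≤ C * (κ / (2 * (C + 1))) := by gcongr
          _ = (κ / 2) * (C / (C + 1)) := by field_simp
          _ ≤ (κ / 2) * 1 := by
              gcongr
              rw [div_le_one (by positivity)]; linarith
          _ = κ / 2 := by ring
      set E := ∑ j ∈ Ico 1 D.m, D.ee j x * (ss D.r D.a x * Y) ^ j with hEdef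
      have h5 : |(-1 : ℝ) ^ (n + k / 2 + 1) * E| ≤ κ / 2 * M := by
        rw [abs_mul, abs_pow, abs_neg, abs_one, one_pow, one_mul]
        exact h2.trans h4
      have h6 := (abs_le.1 h5).1
      have h7 : 0 < κ * M := mul_pos hκ hMp
      rw [mul_add]
      linarith
  · -- odd zones
    intro ho
    obtain ⟨hl, hu, -, hZo⟩ := hZ
    have h1 := hZo ho
    have hk0 : k ≠ 0 := by rintro rfl; exact ho (by norm_num)
    have hkn : k ≠ 2 * n := by rintro rfl; exact ho (even_two_mul n)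
    have h2 := hl hk0
    have h3 := hu hkn
    rw [if_neg ho] at h3
    change _ * D.sc x ≤ y at h2
    change y ≤ _ * D.sc x at h3
    rcases hx0.eq_or_lt with hx | hx
    · subst hx
      rw [D.sc_zero, mul_zero] at h2 h3
      exfalso
      apply hw
      rw [le_antisymm h3 h2]; rfl
    · have hs := ss_pos D.r D.a x
      obtain ⟨Y, rfl⟩ : ∃ Y, y = ss D.r D.a x * Y := ⟨y / ss D.r D.a x, by field_simp⟩
      rw [D.sc_eq hx, mul_comm _ (ss D.r D.a x)] at h2 h3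
      have h4 : (((k + 1) / 2 : ℕ) : ℝ) - δ ≤ Y := le_of_mul_le_mul_left h2 hs
      have h5 : Y ≤ (((k + 1) / 2 : ℕ) : ℝ) + 0 + δ := le_of_mul_le_mul_left h3 hs
      rw [D.wws_eq hx, D.RRs_eq hx, abs_mul, abs_of_pos (pow_pos hs _)] at h1
      have h6 : |D.RRp (uu D.r x) Y| ≤ κ * D.ww Y := by
        have h7 : ss D.r D.a x ^ (D.m - 2) * |D.RRp (uu D.r x) Y| ≤ ss D.r D.a x ^ (D.m - 2) * (κ * D.ww Y) := by
          calc _ ≤ _ := h1
            _ = _ := by ring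
        exact le_of_mul_le_mul_left h7 (pow_pos hs _)
      rw [Nat.not_even_iff_odd] at ho
      obtain ⟨i, rfl⟩ := ho
      have h8 := h.osc (uu D.r x) Y ((2 * i + 1 + 1) / 2) (by omega) (by omega)
        (by rw [abs_le]; constructor <;> linarith) h6
      rw [D.Fxy_eq hx]
      have hp : 0 < (x⁻¹) ^ (2 * D.r + 1) * ss D.r D.a x ^ (D.m - 1) := by positivity
      have hr0 : (0 : ℝ) < D.r := by exact_mod_cast D.hr
      calc (0 : ℝ) < ((x⁻¹) ^ (2 * D.r + 1) * ss D.r D.a x ^ (D.m - 1) * D.r) *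
            ((-1) ^ (n + (2 * i + 1 + 1) / 2) * D.SSp (uu D.r x) Y) := mul_pos (mul_pos hp hr0) h8
        _ = _ := by ring

end Dat

end Pool.Agent.H269.GV
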